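import Pool.Agent.Lib.MP_e46711_an.DefsA

/-!
Basic reusable facts on `sp`, `gg` and powers.
-/

open Set Filter Topology MeasureTheory
open scoped ContDiff

namespace Pool.Agent.Lib.MP_e46711_an

lemma sp_of_nonneg {p x : ℝ} (hp : 0 < p) (hx : 0 ≤ x) : sp p x = x ^ p := by
  rcases hx.eq_or_lt with h | h
  · subst h; simp [sp, Real.zero_rpow hp.ne']
  · simp [sp, sign_pos h, abs_of_pos h]

lemma sp_neg (p x : ℝ) : sp p (-x) = - sp p x := by
  simp [sp, Left.sign_neg]

lemma gg_neg (p x : ℝ) : gg p (-x) = - gg p x := by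
  simp [gg, sp_neg]; ring

lemma sp_zero (p : ℝ) : sp p 0 = 0 := by simp [sp]
lemma gg_zero (p : ℝ) : gg p 0 = 0 := by simp [gg, sp_zero]
lemma sp_one (p : ℝ) : sp p 1 = 1 := by simp [sp]
lemma gg_one (p : ℝ) : gg p 1 = 0 := by simp [gg, sp_one]

lemma gg_of_nonneg {p x : ℝ} (hp : 0 < p) (hx : 0 ≤ x) : gg p x = x - x ^ p := by
  rw [gg, sp_of_nonneg hp hx]

lemma abs_sp {p x : ℝ} (hp : 0 < p) : |sp p x| = |x| ^ p := by
  rcases le_total 0 x with h | h
  · rw [sp_of_nonneg hp h, abs_of_nonneg (Real.rpow_nonneg h _), abs_of_nonneg h]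
  · have : sp p x = - ((-x) ^ p) := by
      have := sp_neg p (-x)
      rw [neg_neg] at this
      rw [this, sp_of_nonneg hp (by linarith)]
    rw [this, abs_neg, abs_of_nonneg (Real.rpow_nonneg (by linarith) _), abs_of_nonpos h]

lemma sp_mul_self {p x : ℝ} (hp : 0 < p) : sp p x * x = |x| ^ (p + 1) := by
  have h0 : ∀ y : ℝ, 0 ≤ y → sp p y * y = |y| ^ (p + 1) := by
    intro y hy
    rw [sp_of_nonneg hp hy, abs_of_nonneg hy]
    rcases hy.eq_or_lt with h | h
    · subst h; simp [Real.zero_rpow (by linarith : p + 1 ≠ 0)]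
    · rw [Real.rpow_add h, Real.rpow_one]
  rcases le_total 0 x with h | h
  · exact h0 x h
  · have := h0 (-x) (by linarith)
    rw [sp_neg, abs_neg] at this
    linarith [this]

lemma sp_mono {p : ℝ} (hp : 0 < p) : Monotone (sp p) := by
  intro x y hxy
  rcases le_total 0 x with hx | hx
  · rw [sp_of_nonneg hp hx, sp_of_nonneg hp (hx.trans hxy)]
    exact Real.rpow_le_rpow hx hxy hp.le
  · have ex : sp p x = - ((-x) ^ p) := by
      have := sp_neg p (-x)
      rw [neg_neg] at this
      rw [this, sp_of_nonneg hp (by linarith)]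
    rcases le_total 0 y with hy | hy
    · rw [ex, sp_of_nonneg hp hy]
      have := Real.rpow_nonneg (by linarith : (0:ℝ) ≤ -x) p
      have := Real.rpow_nonneg hy p
      linarith
    · have ey : sp p y = - ((-y) ^ p) := by
        have := sp_neg p (-y)
        rw [neg_neg] at this
        rw [this, sp_of_nonneg hp (by linarith)]
      rw [ex, ey]
      have := Real.rpow_le_rpow (by linarith : (0:ℝ) ≤ -y) (by linarith : -y ≤ -x) hp.le
      linarith

/-- (g1) -/
lemma gg_sub_le {p x y : ℝ} (hp : 0 < p) (h : y ≤ x) : gg p x - gg p y ≤ x - y := by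
  have := sp_mono hp h
  simp only [gg]; linarith

lemma gg_mul_le {p : ℝ} (hp : 0 < p) (x y : ℝ) : (gg p x - gg p y) * (x - y) ≤ (x - y) ^ 2 := by
  have := mul_nonneg_iff.2 (show (0 ≤ sp p x - sp p y ∧ 0 ≤ x - y) ∨
      (sp p x - sp p y ≤ 0 ∧ x - y ≤ 0) by
    rcases le_total y x with h | h
    · left; exact ⟨by linarith [sp_mono hp h], by linarith⟩
    · right; exact ⟨by linarith [sp_mono hp h], by linarith⟩)
  simp only [gg]
  nlinarith [this]

/-- (g2) -/
lemma abs_gg_le {p : ℝ} (hp : 0 < p) (hp1 : p < 1) (x : ℝ) : |gg p x| ≤ 1 + 2 * |x| := by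
  have h1 : |x| ^ p ≤ 1 + |x| := by
    rcases le_total |x| 1 with h | h
    · have := Real.rpow_le_one (abs_nonneg x) h hp.le
      linarith [abs_nonneg x]
    · have := Real.rpow_le_rpow_of_exponent_le h hp1.le
      rw [Real.rpow_one] at this
      linarith
  calc |gg p x| ≤ |x| + |sp p x| := by rw [gg]; exact abs_sub _ _
    _ ≤ 1 + 2 * |x| := by rw [abs_sp hp]; linarith

/-- (g3) -/
lemma neg_one_le_gg {p x : ℝ} (hp : 0 < p) (hp1 : p < 1) (hx : 0 ≤ x) : -1 ≤ gg p x := by
  rw [gg_of_nonneg hp hx]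
  rcases le_total x 1 with h | h
  · have := Real.rpow_le_one hx h hp.le
    linarith
  · have := Real.rpow_le_rpow_of_exponent_le h hp1.le
    rw [Real.rpow_one] at this
    linarith

/-- (g4) -/
lemma gg_neg_of_mem {p x : ℝ} (hp : 0 < p) (hp1 : p < 1) (hx : 0 < x) (hx1 : x < 1) :
    gg p x < 0 := by
  rw [gg_of_nonneg hp hx.le]
  have := Real.rpow_lt_rpow_of_exponent_gt hx hx1 hp1
  rw [Real.rpow_one] at this
  linarith

lemma gg_pos_of_one_lt {p x : ℝ} (hp : 0 < p) (hp1 : p < 1) (hx : 1 < x) : 0 < gg p x := by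
  rw [gg_of_nonneg hp (by linarith)]
  have := Real.rpow_lt_rpow_of_exponent_lt hx hp1
  rw [Real.rpow_one] at this
  linarith

/-- `||x|^p - |y|^p| ≤ |x - y|^p` for nonneg. -/
lemma rpow_sub_rpow_le {p x y : ℝ} (hp : 0 < p) (hp1 : p < 1) (hy : 0 ≤ y) (hxy : y ≤ x) :
    x ^ p - y ^ p ≤ (x - y) ^ p := by
  have := Real.rpow_add_le_add_rpow hy (by linarith : 0 ≤ x - y) hp.le hp1.le
  rw [show y + (x - y) = x by ring] at this
  linarith

/-- (g5) -/
lemma abs_sp_sub_le {p : ℝ} (hp : 0 < p) (hp1 : p < 1) (x y : ℝ) :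
    |sp p x - sp p y| ≤ 2 * |x - y| ^ p := by
  wlog h : y ≤ x generalizing x y with H
  · have := H y x (le_of_not_ge h)
    rwa [abs_sub_comm (sp p x), abs_sub_comm x]
  have h1 := sp_mono hp h
  rw [abs_of_nonneg (by linarith), abs_of_nonneg (by linarith : 0 ≤ x - y)]
  have hneg : ∀ z : ℝ, z ≤ 0 → sp p z = - ((-z) ^ p) := by
    intro z hz
    have := sp_neg p (-z)
    rw [neg_neg] at this
    rw [this, sp_of_nonneg hp (by linarith)]
  have hnn : 0 ≤ (x - y) ^ p := Real.rpow_nonneg (by linarith) _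
  rcases le_total 0 y with hy | hy
  · rw [sp_of_nonneg hp hy, sp_of_nonneg hp (hy.trans h)]
    linarith [rpow_sub_rpow_le hp hp1 hy h]
  · rcases le_total 0 x with hx | hx
    · rw [hneg y hy, sp_of_nonneg hp hx]
      have a1 := Real.rpow_le_rpow hx (by linarith : x ≤ x - y) hp.le
      have a2 := Real.rpow_le_rpow (by linarith : 0 ≤ -y) (by linarith : -y ≤ x - y) hp.le
      linarith
    · rw [hneg y hy, hneg x hx]
      have := rpow_sub_rpow_le hp hp1 (by linarith : 0 ≤ -x) (by linarith : -x ≤ -y)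
      rw [show -y - -x = x - y by ring] at this
      linarith

lemma abs_gg_sub_le {p : ℝ} (hp : 0 < p) (hp1 : p < 1) (x y : ℝ) :
    |gg p x - gg p y| ≤ |x - y| + 2 * |x - y| ^ p := by
  have := abs_sp_sub_le hp hp1 x y
  have h2 : gg p x - gg p y = (x - y) - (sp p x - sp p y) := by simp only [gg]; ring
  rw [h2]
  exact (abs_sub _ _).trans (by linarith)

lemma continuous_sp {p : ℝ} (hp : 0 < p) (hp1 : p < 1) : Continuous (sp p) := by
  rw [continuous_iff_continuousAt]
  intro x
  rw [ContinuousAt, tendsto_iff_norm_sub_tendsto_zero]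
  have h1 : Tendsto (fun y : ℝ => 2 * |y - x| ^ p) (𝓝 x) (𝓝 0) := by
    have : Continuous fun y : ℝ => 2 * |y - x| ^ p := by
      have := (continuous_abs.comp (continuous_id.sub continuous_const :
        Continuous fun y : ℝ => y - x))
      exact continuous_const.mul (this.rpow_const (fun _ => Or.inr hp.le))
    have := this.tendsto x
    simpa [Real.zero_rpow hp.ne'] using this
  exact squeeze_zero (fun y => norm_nonneg _) (fun y => by
    rw [Real.norm_eq_abs]; exact abs_sp_sub_le hp hp1 y x) h1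

lemma continuous_gg {p : ℝ} (hp : 0 < p) (hp1 : p < 1) : Continuous (gg p) :=
  continuous_id.sub (continuous_sp hp hp1)

/-- tangent line inequality for `|x|^q`, `q ≥ 1` -/
lemma tangent {q : ℝ} (hq : 1 < q) (x y : ℝ) :
    |y| ^ q + q * (sp (q - 1) y) * (x - y) ≤ |x| ^ q := by
  rcases eq_or_ne y 0 with h | h
  · subst h
    simp [sp_zero, Real.zero_rpow (by linarith : q ≠ 0)]
    exact Real.rpow_nonneg (abs_nonneg _) _
  · have hy : 0 < |y| := abs_pos.2 h
    have key : ∀ t : ℝ, 1 + q * (t - 1) ≤ |t| ^ q := by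
      intro t
      rcases le_total 0 t with ht | ht
      · have := one_add_mul_self_le_rpow_one_add (by linarith : -1 ≤ t - 1) hq.le
        rw [show (1:ℝ) + (t - 1) = t by ring] at this
        rwa [abs_of_nonneg ht]
      · have : 0 ≤ |t| ^ q := Real.rpow_nonneg (abs_nonneg _) _
        nlinarith
    have h1 := key (x / y)
    have h2 : |x| ^ q = |y| ^ q * |x / y| ^ q := by
      rw [← Real.mul_rpow hy.le (abs_nonneg _), abs_div, mul_div_cancel₀ _ hy.ne']
    have h3 : sp (q - 1) y * y = |y| ^ q := by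
      rw [sp_mul_self (by linarith)]; congr 1; ring
    rw [h2]
    have h4 : |y| ^ q * (1 + q * (x / y - 1)) = |y| ^ q + q * (sp (q - 1) y) * (x - y) := by
      rw [← h3]; field_simp
    rw [← h4]
    exact mul_le_mul_of_nonneg_left h1 (Real.rpow_nonneg hy.le _)

end Pool.Agent.Lib.MP_e46711_an
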