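import Pool.Agent.Lib.MP_e46711_an.H82.Basic
import Pool.Agent.Lib.MP_e46711_an.H7.Basic

/-!
Tools for part B: `muT`, `om`, `Inu`.
-/

open Set Filter Topology MeasureTheory
open scoped ContDiff

namespace Pool.Agent.Lib.MP_e46711_an
namespace H82

variable {ℓ : ℝ}

lemma int_fst (hℓ : 0 < ℓ) (f : ℝ → ℝ) :
    ∫ z, f z.1 ∂muT ℓ = 2 * ∫ s in (0:ℝ)..ℓ, f s := by
  have h := integral_prod_mul (μ := volume.restrict (Ioc 0 ℓ))
    (ν := volume.restrict (Ioo (-1:ℝ) 1)) f (fun _ => (1:ℝ))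
  simp only [mul_one] at h
  rw [muT, h, intervalIntegral.integral_of_le hℓ.le]
  simp only [integral_const, smul_eq_mul, mul_one]
  have : (volume.restrict (Ioo (-1:ℝ) 1)).real univ = 2 := by
    rw [measureReal_restrict_apply_univ, Real.volume_real_Ioo_of_le (by norm_num)]; norm_num
  rw [this]; ring

/-- `C^1` functions of `s` as `C1per` functions -/
lemma c1per_fst {u : ℝ → ℝ} (hu : C1p ℓ u) : C1per ℓ (fun z => u z.1) :=
  ⟨hu.1.comp contDiff_fst, fun s y => hu.2 s⟩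

lemma dS_fst {u : ℝ → ℝ} (hu : Differentiable ℝ u) (z : ℝ × ℝ) :
    dS (fun z : ℝ × ℝ => u z.1) z = deriv u z.1 := by
  have h : HasFDerivAt (fun z : ℝ × ℝ => u z.1)
      ((ContinuousLinearMap.toSpanSingleton ℝ (deriv u z.1)).comp (ContinuousLinearMap.fst ℝ ℝ ℝ)) z :=
    (hu z.1).hasDerivAt.hasFDerivAt.comp z hasFDerivAt_fst
  rw [dS, h.fderiv]; simp

lemma dY_fst {u : ℝ → ℝ} (hu : Differentiable ℝ u) (z : ℝ × ℝ) :
    dY (fun z : ℝ × ℝ => u z.1) z = 0 := by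
  have h : HasFDerivAt (fun z : ℝ × ℝ => u z.1)
      ((ContinuousLinearMap.toSpanSingleton ℝ (deriv u z.1)).comp (ContinuousLinearMap.fst ℝ ℝ ℝ)) z :=
    (hu z.1).hasDerivAt.hasFDerivAt.comp z hasFDerivAt_fst
  rw [dY, h.fderiv]; simp

variable {h : ℝ → ℝ}

/-- a bound for `h` on `[0,ℓ]` -/
lemma exists_hbound (hc : Continuous h) : ∃ H > 0, ∀ s ∈ Icc 0 ℓ, |h s| ≤ H := by
  obtain ⟨K, hK⟩ := (isCompact_Icc (a := (0:ℝ)) (b := ℓ)).exists_bound_of_continuousOn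
    hc.continuousOn
  refine ⟨max K 1, by positivity, fun s hs => (hK s hs).trans (le_max_left _ _)⟩

lemma cont_om (hc : Continuous h) (δ : ℝ) : Continuous (om ℓ h δ) := by
  unfold om; fun_prop

lemma om_pos (δ : ℝ) (z : ℝ × ℝ) : 0 < om ℓ h δ z := Real.exp_pos _

/-- `ω` is uniformly close to `1` -/
lemma om_sub_one (hℓ : 0 < ℓ) {H : ℝ} (hH : ∀ s ∈ Icc 0 ℓ, |h s| ≤ H) {δ : ℝ} (hδ : 0 ≤ δ) :
    ∀ᵐ z ∂muT ℓ, |om ℓ h δ z - 1| ≤ Real.exp (4 * Real.pi * H / ℓ * δ) - 1 := by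
  filter_upwards [H7.ae_muT_mem ℓ] with z hz
  have h1 : |4 * Real.pi * δ * h z.1 * z.2 / ℓ| ≤ 4 * Real.pi * H / ℓ * δ := by
    rw [abs_div, abs_mul, abs_mul, abs_mul, abs_of_pos (by positivity : (0:ℝ) < 4 * Real.pi),
      abs_of_nonneg hδ, abs_of_pos hℓ]
    have a1 := hH z.1 (Ioc_subset_Icc_self hz.1)
    have a2 : |z.2| ≤ 1 := abs_le.2 ⟨hz.2.1.le, hz.2.2.le⟩
    have a3 : |h z.1| * |z.2| ≤ H * 1 :=
      mul_le_mul a1 a2 (abs_nonneg _) ((abs_nonneg _).trans a1)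
    rw [div_le_iff₀ hℓ]
    have : 4 * Real.pi * H / ℓ * δ * ℓ = 4 * Real.pi * δ * (H * 1) := by field_simp
    rw [this]
    calc 4 * Real.pi * δ * |h z.1| * |z.2| = 4 * Real.pi * δ * (|h z.1| * |z.2|) := by ring
      _ ≤ _ := by gcongr
  set x := 4 * Real.pi * δ * h z.1 * z.2 / ℓ with hx
  have h2 : om ℓ h δ z = Real.exp x := by rw [om, hx]
  rw [h2]
  have h3 : |Real.exp x - 1| ≤ Real.exp |x| - 1 := by
    rcases le_total 0 x with h0 | h0
    · rw [abs_of_nonneg h0, abs_of_nonneg (by linarith [Real.one_le_exp h0])]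
    · rw [abs_of_nonpos h0, abs_of_nonpos (by linarith [Real.exp_le_one_iff.2 h0])]
      have : 2 ≤ Real.exp x + Real.exp (-x) := by
        have e1 := Real.exp_pos x
        have e2 : Real.exp x * Real.exp (-x) = 1 := by rw [← Real.exp_add]; simp
        nlinarith [sq_nonneg (Real.exp x - 1), Real.exp_pos (-x),
          sq_nonneg (Real.exp x - Real.exp (-x))]
      linarith
  exact h3.trans (by linarith [Real.exp_le_exp.2 h1])

lemma integrable_mul_cont {f g : ℝ × ℝ → ℝ} (hf : Integrable f (muT ℓ)) (hg : Continuous g) :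
    Integrable (fun z => f z * g z) (muT ℓ) := by
  obtain ⟨K, hK0, hK⟩ := H7.exists_ae_bound ℓ hg
  exact hf.mul_bdd hg.aestronglyMeasurable (by simpa [Real.norm_eq_abs] using hK)

/-- `Inu` is close to the integral against `h/2` -/
lemma inu_diff (hℓ : 0 < ℓ) (hc : Continuous h) {H : ℝ} (hH : ∀ s ∈ Icc 0 ℓ, |h s| ≤ H)
    {δ : ℝ} (hδ : 0 ≤ δ) {f : ℝ × ℝ → ℝ} (hf : Integrable f (muT ℓ)) :
    |Inu ℓ h δ f - ∫ z, f z * (h z.1 / 2) ∂muT ℓ|
      ≤ (Real.exp (4 * Real.pi * H / ℓ * δ) - 1) * H * ∫ z, |f z| ∂muT ℓ := by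
  have c1 : Continuous fun z : ℝ × ℝ => h z.1 * om ℓ h δ z / 2 :=
    ((hc.comp continuous_fst).mul (cont_om hc δ)).div_const _
  have c2 : Continuous fun z : ℝ × ℝ => h z.1 / 2 := (hc.comp continuous_fst).div_const _
  have hH0 : 0 ≤ H := (abs_nonneg _).trans (hH 0 ⟨le_rfl, hℓ.le⟩)
  have hx0 : 0 ≤ 4 * Real.pi * H / ℓ * δ := by positivity
  have he : 0 ≤ Real.exp (4 * Real.pi * H / ℓ * δ) - 1 := by
    linarith [Real.one_le_exp hx0]
  rw [Inu, ← integral_sub (integrable_mul_cont hf c1) (integrable_mul_cont hf c2)]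
  calc |∫ z, (f z * (h z.1 * om ℓ h δ z / 2) - f z * (h z.1 / 2)) ∂muT ℓ|
      ≤ ∫ z, |f z * (h z.1 * om ℓ h δ z / 2) - f z * (h z.1 / 2)| ∂muT ℓ := abs_integral_le_integral_abs
    _ ≤ ∫ z, (Real.exp (4 * Real.pi * H / ℓ * δ) - 1) * H * |f z| ∂muT ℓ := by
        apply integral_mono_ae
        · exact ((integrable_mul_cont hf c1).sub (integrable_mul_cont hf c2)).abs
        · exact hf.abs.const_mul _
        · filter_upwards [om_sub_one hℓ hH hδ, H7.ae_muT_mem ℓ] with z hz hz2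
          have e : f z * (h z.1 * om ℓ h δ z / 2) - f z * (h z.1 / 2)
              = f z * (h z.1 * (om ℓ h δ z - 1) / 2) := by ring
          rw [e, abs_mul, abs_div, abs_mul, abs_of_pos (by norm_num : (0:ℝ) < 2)]
          have a1 := hH z.1 (Ioc_subset_Icc_self hz2.1)
          have a2 : |h z.1| * |om ℓ h δ z - 1| ≤ H * (Real.exp (4 * Real.pi * H / ℓ * δ) - 1) :=
            mul_le_mul a1 hz (abs_nonneg _) hH0
          have a3 : |h z.1| * |om ℓ h δ z - 1| / 2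
              ≤ (Real.exp (4 * Real.pi * H / ℓ * δ) - 1) * H := by
            have : 0 ≤ H * (Real.exp (4 * Real.pi * H / ℓ * δ) - 1) := by positivity
            linarith
          calc |f z| * (|h z.1| * |om ℓ h δ z - 1| / 2)
              ≤ |f z| * ((Real.exp (4 * Real.pi * H / ℓ * δ) - 1) * H) := by gcongr
            _ = _ := by ring
    _ = _ := by rw [integral_const_mul]

/-- limit of `Inu` for a fixed function -/
lemma inu_tendsto (hℓ : 0 < ℓ) (hc : Continuous h) {f : ℝ × ℝ → ℝ}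
    (hf : Integrable f (muT ℓ)) :
    Tendsto (fun δ => Inu ℓ h δ f) (𝓝[>] 0) (𝓝 (∫ z, f z * (h z.1 / 2) ∂muT ℓ)) := by
  obtain ⟨H, hH0, hH⟩ := exists_hbound (ℓ := ℓ) hc
  rw [tendsto_iff_norm_sub_tendsto_zero]
  have h1 : Tendsto (fun δ : ℝ => (Real.exp (4 * Real.pi * H / ℓ * δ) - 1) * H
      * ∫ z, |f z| ∂muT ℓ) (𝓝[>] 0) (𝓝 0) := by
    have : Continuous fun δ : ℝ => (Real.exp (4 * Real.pi * H / ℓ * δ) - 1) * H
      * ∫ z, |f z| ∂muT ℓ := by fun_prop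
    have := this.tendsto 0
    simp only [mul_zero, Real.exp_zero, sub_self, zero_mul] at this
    exact this.mono_left nhdsWithin_le_nhds
  refine squeeze_zero' (Eventually.of_forall fun _ => norm_nonneg _) ?_ h1
  filter_upwards [self_mem_nhdsWithin] with δ hδ
  rw [Real.norm_eq_abs]
  exact inu_diff hℓ hc hH (le_of_lt hδ) hf

lemma inu_fst_tendsto (hℓ : 0 < ℓ) (hc : Continuous h) {u : ℝ → ℝ} (hu : Continuous u) :
    Tendsto (fun δ => Inu ℓ h δ (fun z => u z.1)) (𝓝[>] 0)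
      (𝓝 (∫ s in (0:ℝ)..ℓ, h s * u s)) := by
  have hi : Integrable (fun z : ℝ × ℝ => u z.1) (muT ℓ) :=
    memLp_one_iff_integrable.1 (H7.memLp_of_continuous ℓ (hu.comp continuous_fst) 1)
  have := inu_tendsto hℓ hc hi
  have e : (∫ z, u z.1 * (h z.1 / 2) ∂muT ℓ) = ∫ s in (0:ℝ)..ℓ, h s * u s := by
    rw [int_fst hℓ (fun s => u s * (h s / 2)), ← intervalIntegral.integral_const_mul]
    congr 1; funext s; ring
  rwa [e] at this

end H82
end Pool.Agent.Lib.MP_e46711_an
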