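import Pool.Agent.Lib.MP_e46711_an.H82.ToolB

/-!
B5: `ExStatement`.
-/

open Set Filter Topology MeasureTheory
open scoped ContDiff

namespace Pool.Agent.Lib.MP_e46711_an
namespace H82

variable {p l0 l1 l3 : ℝ}

lemma a2_fst (R : Ring1D p l0 l1 l3) (u : ℝ → ℝ) :
    R.a2 (fun z => u z.1) = ∫ s in (0:ℝ)..R.ℓ, R.wa s * u s := by
  rw [Ring1D.a2, int_fst R.hℓ (fun s => R.wa s * u s)]; ring

lemma b2_fst (R : Ring1D p l0 l1 l3) (u : ℝ → ℝ) :
    R.b2 (fun z => u z.1) = ∫ s in (0:ℝ)..R.ℓ, R.wb s * u s := by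
  rw [Ring1D.b2, int_fst R.hℓ (fun s => R.wb s * u s)]; ring

lemma a2_smul (R : Ring1D p l0 l1 l3) (c : ℝ) (U : ℝ × ℝ → ℝ) :
    R.a2 (fun z => c * U z) = c * R.a2 U := by
  rw [Ring1D.a2, Ring1D.a2, ← mul_div_assoc, ← integral_const_mul]
  congr 2; funext z; ring

lemma b2_smul (R : Ring1D p l0 l1 l3) (c : ℝ) (U : ℝ × ℝ → ℝ) :
    R.b2 (fun z => c * U z) = c * R.b2 U := by
  rw [Ring1D.b2, Ring1D.b2, ← mul_div_assoc, ← integral_const_mul]
  congr 2; funext z; ring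

/-- Dirichlet form of a function of `s` only -/
lemma bil_fst (R : Ring1D p l0 l1 l3) (δ : ℝ) {u : ℝ → ℝ} (hu : C1p R.ℓ u) :
    Bil R.ℓ R.h δ (dS fun z => u z.1) (dY fun z => u z.1) (dS fun z => u z.1)
      (dY fun z => u z.1) = En R.h u 0 R.ℓ := by
  have hd := hu.1.differentiable one_ne_zero
  have e : (fun z : ℝ × ℝ => (G1 R.h (dS fun z => u z.1) (dY fun z => u z.1) z
      * G1 R.h (dS fun z => u z.1) (dY fun z => u z.1) z
      + G2 R.h δ (dY fun z => u z.1) z * G2 R.h δ (dY fun z => u z.1) z) * (R.h z.1 / 2))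
      = fun z => (R.h z.1 * (deriv u z.1) ^ 2) / 2 := by
    funext z
    rw [G1, G2, dS_fst hd, dY_fst hd]; ring
  rw [Bil, e, int_fst R.hℓ (fun s => R.h s * (deriv u s) ^ 2 / 2), En,
    ← intervalIntegral.integral_const_mul]
  congr 1; funext s; ring

/-- the test function of `W2` is admissible -/
lemma test_adm (R : Ring1D p l0 l1 l3) : ∃ φ, C1per R.ℓ φ ∧ ∀ᶠ δ in 𝓝[>] (0:ℝ),
    R.Adm δ φ (dS φ) (dY φ) ∧ R.σ < R.BF δ φ (dS φ) (dY φ) := by
  obtain ⟨u, hu, hZ, ha, hab, hba, hσ⟩ := R.W2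
  have hc := R.smooth.continuous
  have hp0 := R.hp0
  refine ⟨fun z => u z.1, c1per_fst hu, ?_⟩
  have hu1 : Continuous fun s => |u s| ^ (p + 1) :=
    (continuous_abs.comp hu.1.continuous).rpow_const (fun _ => Or.inr (by linarith))
  have t1 := inu_fst_tendsto R.hℓ hc hu1
  have t2 := inu_fst_tendsto R.hℓ hc (hu.1.continuous.pow 2)
  have e1 : ∀ᶠ δ in 𝓝[>] (0:ℝ), Inu R.ℓ R.h δ (fun z => |u z.1| ^ (p + 1)) < 1 :=
    t1.eventually_lt_const hZ
  have e2 : ∀ᶠ δ in 𝓝[>] (0:ℝ), R.σ < l0 * Inu R.ℓ R.h δ (fun z => u z.1 ^ 2)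
      - En R.h u 0 R.ℓ := by
    have t3 := (t2.const_mul l0).sub_const (En R.h u 0 R.ℓ)
    exact t3.eventually_const_lt hσ
  filter_upwards [e1, e2] with δ f1 f2
  refine ⟨⟨H7.h1t_of_C1per (c1per_fst hu), f1.le, ?_, ?_, ?_⟩, ?_⟩
  · rw [a2_fst]; exact ha.le
  · rw [a2_fst, b2_fst]; exact hab.le
  · rw [a2_fst, b2_fst]; exact hba.le
  · rw [Ring1D.BF, bil_fst R δ hu]; exact f2

lemma inu_sq_nonneg (R : Ring1D p l0 l1 l3) (δ : ℝ) (f : ℝ × ℝ → ℝ) (hf : ∀ z, 0 ≤ f z) :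
    0 ≤ Inu R.ℓ R.h δ f :=
  integral_nonneg fun z => mul_nonneg (hf z)
    (div_nonneg (mul_nonneg (R.pos _).le (om_pos _ _).le) (by norm_num))

lemma rpow_le_imp {a q K : ℝ} (ha : 0 ≤ a) (hq : 0 < q) (hK : 0 ≤ K) (h : a ^ q ≤ K) :
    a ≤ K ^ (1 / q) := by
  have := Real.rpow_le_rpow (Real.rpow_nonneg ha _) h (by positivity : 0 ≤ 1 / q)
  rwa [← Real.rpow_mul ha, mul_one_div_cancel hq.ne', Real.rpow_one] at this

theorem b5a (hMax : MaxExists) (hEL : EulerLagrange) (hW : W12D) (hCo : Coer2D)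
    (R : Ring1D p l0 l1 l3) : ∃ K κ, 0 < κ ∧ ∀ᶠ δ in 𝓝[>] (0:ℝ), ∃ U V W,
      WSol p l0 R.ℓ R.h δ U V W ∧ ∫ z, U z ^ 2 ∂muT R.ℓ ≤ K ∧ κ ≤ R.a2 U ∧
      R.t1 * R.a2 U ≤ R.b2 U ∧ R.b2 U ≤ R.t2 * R.a2 U ∧
      Inu R.ℓ R.h δ (fun z => |U z| ^ (p + 1)) ≤ R.Z1 := by
  have hp0 := R.hp0
  have hp1 := R.hp1
  have hl0 := R.hl0
  have hl01 := R.hl01
  have hσ := R.hσ
  have hθ := R.hθ
  have ht1 := R.ht1
  have ht2 := R.ht2
  obtain ⟨c, hc, C, hC, eC⟩ := hCo p l0 l1 l3 R l1 (by linarith) R.hl13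
  -- bounds for the averages
  set A := ((1 + R.θ) / R.NH) ^ (1 / (p + 1)) with hA
  have hNH := R.hNH
  have hNL := R.hNL
  have hA0 : 0 < A := by positivity
  set B := C * (A ^ 2 + (R.t2 * A) ^ 2) with hB
  have hB0 : 0 < B := by positivity
  set K := B / c + 1 with hK
  have hK0 : 0 < K := by positivity
  have eW := hW p l0 l1 l3 R K hK0 R.θ hθ
  obtain ⟨φ, hφ, eφ⟩ := test_adm R
  refine ⟨((l0 / R.σ) ^ (1 / (1 - p))) ^ 2 * K, (l0 / B) ^ (1 / (1 - p)) * R.θ, by positivity, ?_⟩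
  have e0 : ∀ᶠ δ in 𝓝[>] (0:ℝ), δ ∈ Ioc (0:ℝ) 1 := Ioc_mem_nhdsGT one_pos
  filter_upwards [eC, eW, eφ, hMax p l0 l1 l3 R, e0] with δ fC fW fφ fM hδ
  obtain ⟨U, V, W, hU, hmax⟩ := fM
  obtain ⟨hUH, hUZ, hUa, hUab, hUba⟩ := hU
  have hBF : R.σ < R.BF δ U V W := fφ.2.trans_le (hmax _ _ _ fφ.1)
  obtain ⟨w1, w2⟩ := fW U V W hUH
  have w3 : R.NH * |R.a2 U| ^ (p + 1) + R.NL * |R.b2 U| ^ (p + 1) ≤ 1 + R.θ :=
    w1.trans (by nlinarith)
  have hb0 : 0 ≤ R.b2 U := le_trans (by positivity) hUab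
  have haA : R.a2 U ≤ A := by
    have h1 : R.NH * |R.a2 U| ^ (p + 1) ≤ 1 + R.θ := by
      have : 0 ≤ R.NL * |R.b2 U| ^ (p + 1) := by positivity
      linarith
    rw [abs_of_nonneg hUa] at h1
    exact rpow_le_imp hUa (by linarith) (by positivity) (by
      rw [le_div_iff₀ hNH]; linarith)
  have hbA : R.b2 U ≤ R.t2 * A := hUba.trans (by
    apply mul_le_mul_of_nonneg_left haA (by linarith))
  have co := fC U V W hUH
  set S := Inu R.ℓ R.h δ (fun z => U z ^ 2) with hS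
  have hS0 : 0 ≤ S := inu_sq_nonneg R δ _ (fun z => sq_nonneg _)
  set E := Bil R.ℓ R.h δ V W V W with hE
  have hE0 : 0 ≤ E := by
    rw [hE, Bil]
    exact integral_nonneg fun z => mul_nonneg (add_nonneg (mul_self_nonneg _) (mul_self_nonneg _))
      (div_nonneg (R.pos _).le (by norm_num))
  have hI0 : 0 ≤ ∫ z, U z ^ 2 ∂muT R.ℓ := integral_nonneg fun z => sq_nonneg _
  have hBFe : R.BF δ U V W = l0 * S - E := rfl
  have hab : R.a2 U ^ 2 + R.b2 U ^ 2 ≤ A ^ 2 + (R.t2 * A) ^ 2 := by gcongr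
  have hBle : C * (R.a2 U ^ 2 + R.b2 U ^ 2) ≤ B := by
    rw [hB]; gcongr
  have hl : l0 * S ≤ l1 * S := mul_le_mul_of_nonneg_right hl01.le hS0
  have hmain : c * ((∫ z, U z ^ 2 ∂muT R.ℓ) + E) ≤ - R.BF δ U V W + B := by
    rw [hBFe]; linarith
  have hsum : (∫ z, U z ^ 2 ∂muT R.ℓ) + E ≤ B / c := by
    rw [le_div_iff₀ hc]; linarith
  have hUK : ∫ z, U z ^ 2 ∂muT R.ℓ ≤ K := by linarith
  have hEK : E ≤ K := by linarith
  have hBB : R.BF δ U V W ≤ B := by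
    have : 0 ≤ c * ((∫ z, U z ^ 2 ∂muT R.ℓ) + E) := by positivity
    linarith
  have w4 := w2 hUK hEK
  obtain ⟨x1, x2, x3⟩ := R.W3 (R.a2 U) (R.b2 U) hUa hUab hUba w3 (by
    have : R.BF δ U V W ≤ R.Q (R.a2 U) (R.b2 U) + R.θ := w4
    linarith)
  obtain ⟨y1, y2⟩ := hEL p l0 l1 l3 R δ hδ U V W ⟨hUH, hUZ, hUa, hUab, hUba⟩ hmax (by linarith)
    (by linarith) (by linarith) (by linarith)
  set b := R.BF δ U V W with hb
  have hb0' : 0 < b := by linarith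
  set k := (l0 / b) ^ (1 / (1 - p)) with hk
  have hk0 : 0 < k := by positivity
  have h1p : 0 < 1 - p := by linarith
  have hklo : (l0 / B) ^ (1 / (1 - p)) ≤ k := by
    apply Real.rpow_le_rpow (by positivity) _ (by positivity)
    exact div_le_div_of_nonneg_left hl0.le hb0' hBB
  have hkhi : k ≤ (l0 / R.σ) ^ (1 / (1 - p)) := by
    apply Real.rpow_le_rpow (by positivity) _ (by positivity)
    exact div_le_div_of_nonneg_left hl0.le hσ hBF.le
  refine ⟨_, _, _, y2, ?_, ?_, ?_, ?_, ?_⟩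
  · have : (fun z => (k * U z) ^ 2) = fun z => k ^ 2 * U z ^ 2 := by funext z; ring
    rw [this, integral_const_mul]
    gcongr
  · rw [a2_smul]
    gcongr
  · rw [a2_smul, b2_smul]
    nlinarith
  · rw [a2_smul, b2_smul]
    nlinarith
  · have e1 : (fun z => |k * U z| ^ (p + 1)) = fun z => k ^ (p + 1) * |U z| ^ (p + 1) := by
      funext z
      rw [abs_mul, abs_of_pos hk0, Real.mul_rpow hk0.le (abs_nonneg _)]
    have e2 : Inu R.ℓ R.h δ (fun z => k ^ (p + 1) * |U z| ^ (p + 1))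
        = k ^ (p + 1) * Inu R.ℓ R.h δ (fun z => |U z| ^ (p + 1)) := by
      rw [Inu, Inu, ← integral_const_mul]
      congr 1; funext z; ring
    rw [e1, e2, y1, mul_one]
    refine le_trans ?_ R.hZ1
    have e3 : k ^ (p + 1) = (l0 / b) ^ ((p + 1) / (1 - p)) := by
      rw [hk, ← Real.rpow_mul (by positivity)]; congr 1; ring
    rw [e3]
    apply Real.rpow_le_rpow (by positivity) _ (by positivity)
    calc l0 / b ≤ l0 / R.σ := div_le_div_of_nonneg_left hl0.le hσ hBF.le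
      _ ≤ 2 * l0 / R.σ := by gcongr; linarith

end H82
end Pool.Agent.Lib.MP_e46711_an

namespace Pool.Agent.Lib.MP_e46711_an
namespace H82

variable {p l0 l1 l3 : ℝ}

/-- `|∫ w f|^2` bound on `muT` -/
lemma abs_int_mul_le (R : Ring1D p l0 l1 l3) {w : ℝ → ℝ} (hw : Measurable w) {K : ℝ}
    (hK : ∀ s, |w s| ≤ K) {f : ℝ × ℝ → ℝ} (hf : MemLp f 2 (muT R.ℓ)) :
    (∫ z, w z.1 * f z ∂muT R.ℓ) ^ 2 ≤ K ^ 2 * (2 * R.ℓ) * ∫ z, f z ^ 2 ∂muT R.ℓ := by
  have hℓ := R.hℓ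
  have hfi : Integrable f (muT R.ℓ) := hf.integrable (by norm_num)
  have hf2 : Integrable (fun z => f z ^ 2) (muT R.ℓ) := hf.integrable_sq
  have hK0 : 0 ≤ K := (abs_nonneg _).trans (hK 0)
  have hwf : Integrable (fun z => w z.1 * f z) (muT R.ℓ) :=
    hfi.bdd_mul (hw.comp measurable_fst).aestronglyMeasurable
      (Eventually.of_forall fun z => by simpa [Real.norm_eq_abs] using hK z.1)
  have hm : (muT R.ℓ).real univ = 2 * R.ℓ := by
    have := int_fst hℓ (fun _ => (1:ℝ))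
    simp only [integral_const, smul_eq_mul, mul_one, intervalIntegral.integral_const, sub_zero]
      at this
    exact this
  have h1 : |∫ z, w z.1 * f z ∂muT R.ℓ| ≤ K * ∫ z, |f z| ∂muT R.ℓ := by
    rw [← integral_const_mul]
    refine abs_integral_le_integral_abs.trans ?_
    apply integral_mono hwf.abs (hfi.abs.const_mul K)
    intro z
    simp only [abs_mul]
    exact mul_le_mul_of_nonneg_right (hK z.1) (abs_nonneg _)
  -- (∫|f|)^2 ≤ μ ∫ f^2
  have h2 : (∫ z, |f z| ∂muT R.ℓ) ^ 2 ≤ (2 * R.ℓ) * ∫ z, f z ^ 2 ∂muT R.ℓ := by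
    set I := ∫ z, |f z| ∂muT R.ℓ with hI
    have hpos : (0:ℝ) < 2 * R.ℓ := by positivity
    have : 0 ≤ ∫ z, (|f z| - I / (2 * R.ℓ)) ^ 2 ∂muT R.ℓ := integral_nonneg fun z => sq_nonneg _
    have e : (∫ z, (|f z| - I / (2 * R.ℓ)) ^ 2 ∂muT R.ℓ)
        = (∫ z, f z ^ 2 ∂muT R.ℓ) - I ^ 2 / (2 * R.ℓ) := by
      have : (fun z => (|f z| - I / (2 * R.ℓ)) ^ 2)
          = fun z => f z ^ 2 - (2 * (I / (2 * R.ℓ))) * |f z| + (I / (2 * R.ℓ)) ^ 2 := by
        funext z; rw [← sq_abs (f z)]; ring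
      rw [this, integral_add, integral_sub, integral_const_mul, ← hI]
      · simp only [integral_const, smul_eq_mul, hm]
        field_simp
        ring
      · exact hf2
      · exact hfi.abs.const_mul _
      · exact hf2.sub (hfi.abs.const_mul _)
      · exact integrable_const _
    rw [e] at this
    have h3 : I ^ 2 / (2 * R.ℓ) ≤ ∫ z, f z ^ 2 ∂muT R.ℓ := by linarith
    rwa [div_le_iff₀ hpos, mul_comm] at h3
  have h3 : (∫ z, w z.1 * f z ∂muT R.ℓ) ^ 2 ≤ (K * ∫ z, |f z| ∂muT R.ℓ) ^ 2 := by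
    rw [← sq_abs]
    gcongr
  refine h3.trans ?_
  rw [mul_pow, mul_assoc]
  exact mul_le_mul_of_nonneg_left h2 (sq_nonneg K)

lemma wa_abs (R : Ring1D p l0 l1 l3) : ∃ K, ∀ s, |R.wa s| ≤ K ∧ |R.wb s| ≤ K := by
  obtain ⟨K, hK⟩ := R.wab
  exact ⟨K, fun s => ⟨by rw [abs_of_nonneg (R.wa0 s)]; exact (hK s).1,
    by rw [abs_of_nonneg (R.wb0 s)]; exact (hK s).2⟩⟩

lemma sol_cont {lam ℓ : ℝ} {h u F : ℝ → ℝ} (hs : Sol p lam ℓ h u F) : Continuous u :=
  continuous_iff_continuousAt.2 fun s => (hs.du s).continuousAt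

lemma memLp_fst {ℓ : ℝ} {u : ℝ → ℝ} (hu : Continuous u) :
    MemLp (fun z : ℝ × ℝ => u z.1) 2 (muT ℓ) :=
  H7.memLp_of_continuous ℓ (hu.comp continuous_fst) 2

/-- convergence of `∫ w U_n` -/
lemma tendsto_int_w (R : Ring1D p l0 l1 l3) {w : ℝ → ℝ} (hw : Measurable w) {K : ℝ}
    (hK : ∀ s, |w s| ≤ K) {U : ℕ → ℝ × ℝ → ℝ} (hU : ∀ n, MemLp (U n) 2 (muT R.ℓ))
    {v : ℝ → ℝ} (hv : Continuous v)
    (hlim : Tendsto (fun n => ∫ z, (U n z - v z.1) ^ 2 ∂muT R.ℓ) atTop (𝓝 0)) :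
    Tendsto (fun n => (∫ z, w z.1 * U n z ∂muT R.ℓ) / 2) atTop
      (𝓝 (∫ s in (0:ℝ)..R.ℓ, w s * v s)) := by
  have e0 : ∫ s in (0:ℝ)..R.ℓ, w s * v s = (∫ z, w z.1 * v z.1 ∂muT R.ℓ) / 2 := by
    rw [int_fst R.hℓ (fun s => w s * v s)]; ring
  rw [e0]
  refine Tendsto.div_const ?_ 2
  rw [tendsto_iff_norm_sub_tendsto_zero]
  have hb : ∀ f : ℝ × ℝ → ℝ, MemLp f 2 (muT R.ℓ) → Integrable (fun z => w z.1 * f z) (muT R.ℓ) :=
    fun f hf => (hf.integrable (by norm_num)).bdd_mul (hw.comp measurable_fst).aestronglyMeasurable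
      (Eventually.of_forall fun z => by simpa [Real.norm_eq_abs] using hK z.1)
  have h1 : ∀ n, ‖(∫ z, w z.1 * U n z ∂muT R.ℓ) - ∫ z, w z.1 * v z.1 ∂muT R.ℓ‖
      ≤ Real.sqrt (K ^ 2 * (2 * R.ℓ) * ∫ z, (U n z - v z.1) ^ 2 ∂muT R.ℓ) := by
    intro n
    rw [← integral_sub (hb _ (hU n)) (hb _ (memLp_fst hv)), Real.norm_eq_abs,
      ← Real.sqrt_sq_eq_abs]
    apply Real.sqrt_le_sqrt
    have := abs_int_mul_le R hw hK ((hU n).sub (memLp_fst hv))
    simp only [Pi.sub_apply, mul_sub] at this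
    exact this
  refine squeeze_zero (fun n => norm_nonneg _) h1 ?_
  have h2 := (hlim.const_mul (K ^ 2 * (2 * R.ℓ))).sqrt
  simpa using h2

/-- upper bound for the mass of the limit -/
lemma zm_le (R : Ring1D p l0 l1 l3) {δ : ℕ → ℝ} (hδ : ∀ n, 0 < δ n)
    (hδ0 : Tendsto δ atTop (𝓝 0)) {U : ℕ → ℝ × ℝ → ℝ} (hU : ∀ n, MemLp (U n) 2 (muT R.ℓ))
    {v : ℝ → ℝ} (hv : Continuous v)
    (hlim : Tendsto (fun n => ∫ z, (U n z - v z.1) ^ 2 ∂muT R.ℓ) atTop (𝓝 0)) {Z : ℝ}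
    (hZ : ∀ n, Inu R.ℓ R.h (δ n) (fun z => |U n z| ^ (p + 1)) ≤ Z) : Zm p R.h v 0 R.ℓ ≤ Z := by
  have hp0 := R.hp0
  have hp1 := R.hp1
  have hℓ := R.hℓ
  have hc := R.smooth.continuous
  obtain ⟨H, hH0, hH⟩ := exists_hbound (ℓ := R.ℓ) hc
  have hδt : Tendsto δ atTop (𝓝[>] 0) :=
    tendsto_nhdsWithin_iff.2 ⟨hδ0, Eventually.of_forall fun n => hδ n⟩
  have hvq : Continuous fun s => |v s| ^ (p + 1) :=
    (continuous_abs.comp hv).rpow_const (fun _ => Or.inr (by linarith))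
  have t1 : Tendsto (fun n => Inu R.ℓ R.h (δ n) (fun z => |v z.1| ^ (p + 1))) atTop
      (𝓝 (Zm p R.h v 0 R.ℓ)) := (inu_fst_tendsto hℓ hc hvq).comp hδt
  -- bound of `sp v`
  have hspc : Continuous fun z : ℝ × ℝ => sp p (v z.1) :=
    (continuous_sp hp0 hp1).comp (hv.comp continuous_fst)
  obtain ⟨Ks, hKs0, hKs⟩ := H7.exists_ae_bound R.ℓ hspc
  set g : ℕ → ℝ := fun n => ((p + 1) * Ks * (H * Real.exp (4 * Real.pi * H / R.ℓ * δ n)))
    * Real.sqrt (1 ^ 2 * (2 * R.ℓ) * ∫ z, (U n z - v z.1) ^ 2 ∂muT R.ℓ) with hg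
  have t2 : Tendsto g atTop (𝓝 0) := by
    have h2 := (hlim.const_mul (1 ^ 2 * (2 * R.ℓ))).sqrt
    have h3 : Tendsto (fun n => (p + 1) * Ks * (H * Real.exp (4 * Real.pi * H / R.ℓ * δ n)))
        atTop (𝓝 ((p + 1) * Ks * (H * Real.exp (4 * Real.pi * H / R.ℓ * 0)))) := by
      have : Continuous fun x : ℝ => (p + 1) * Ks * (H * Real.exp (4 * Real.pi * H / R.ℓ * x)) := by
        fun_prop
      exact (this.tendsto 0).comp hδ0
    have h4 := h3.mul h2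
    have e4 : (p + 1) * Ks * (H * Real.exp (4 * Real.pi * H / R.ℓ * 0))
        * √(1 ^ 2 * (2 * R.ℓ) * 0) = 0 := by
      rw [mul_zero (1 ^ 2 * (2 * R.ℓ)), Real.sqrt_zero, mul_zero]
    rw [e4] at h4
    exact h4
  have key : ∀ n, Inu R.ℓ R.h (δ n) (fun z => |v z.1| ^ (p + 1)) - g n ≤ Z := by
    intro n
    refine le_trans ?_ (hZ n)
    have hUi : Integrable (U n) (muT R.ℓ) := (hU n).integrable (by norm_num)
    have hUq : Integrable (fun z => |U n z| ^ (p + 1)) (muT R.ℓ) := by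
      have m1 : AEStronglyMeasurable (fun z => |U n z| ^ (p + 1)) (muT R.ℓ) := by
        have : Continuous fun x : ℝ => |x| ^ (p + 1) :=
          continuous_abs.rpow_const (fun _ => Or.inr (by linarith))
        exact this.comp_aestronglyMeasurable (hU n).1
      refine ((integrable_const (1:ℝ)).add (hU n).integrable_sq).mono' m1 ?_
      refine Eventually.of_forall fun z => ?_
      rw [Real.norm_eq_abs, abs_of_nonneg (Real.rpow_nonneg (abs_nonneg _) _)]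
      simp only [Pi.add_apply]
      rcases le_total |U n z| 1 with h | h
      · have := Real.rpow_le_one (abs_nonneg (U n z)) h (by linarith : 0 ≤ p + 1)
        nlinarith [sq_nonneg (U n z)]
      · have := Real.rpow_le_rpow_of_exponent_le h (by linarith : p + 1 ≤ 2)
        rw [Real.rpow_two, sq_abs] at this
        linarith
    have hdiff : Integrable (fun z => U n z - v z.1) (muT R.ℓ) :=
      hUi.sub ((memLp_fst hv).integrable (by norm_num))
    have hden : Continuous fun z : ℝ × ℝ => R.h z.1 * om R.ℓ R.h (δ n) z / 2 :=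
      ((hc.comp continuous_fst).mul (cont_om hc _)).div_const _
    have hden0 : ∀ z : ℝ × ℝ, 0 ≤ R.h z.1 * om R.ℓ R.h (δ n) z / 2 := fun z =>
      div_nonneg (mul_nonneg (R.pos _).le (om_pos _ _).le) (by norm_num)
    have hspd : Integrable (fun z => (p + 1) * sp p (v z.1) * (U n z - v z.1)) (muT R.ℓ) := by
      refine (hdiff.bdd_mul (c := (p + 1) * Ks) ((continuous_const.mul hspc).aestronglyMeasurable)
        ?_)
      filter_upwards [hKs] with z hz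
      rw [Real.norm_eq_abs, abs_mul, abs_of_pos (by linarith : 0 < p + 1)]
      gcongr
    have hvi : Integrable (fun z : ℝ × ℝ => |v z.1| ^ (p + 1)) (muT R.ℓ) :=
      memLp_one_iff_integrable.1 (H7.memLp_of_continuous R.ℓ (hvq.comp continuous_fst) 1)
    -- tangent inequality integrated
    have s1 : Inu R.ℓ R.h (δ n) (fun z => |v z.1| ^ (p + 1)
        + (p + 1) * sp p (v z.1) * (U n z - v z.1))
        ≤ Inu R.ℓ R.h (δ n) (fun z => |U n z| ^ (p + 1)) := by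
      apply integral_mono (integrable_mul_cont (hvi.add hspd) hden)
        (integrable_mul_cont hUq hden)
      intro z
      have := tangent (by linarith : 1 < p + 1) (U n z) (v z.1)
      rw [show p + 1 - 1 = p by ring] at this
      exact mul_le_mul_of_nonneg_right this (hden0 z)
    have s2 : Inu R.ℓ R.h (δ n) (fun z => |v z.1| ^ (p + 1)
        + (p + 1) * sp p (v z.1) * (U n z - v z.1))
        = Inu R.ℓ R.h (δ n) (fun z => |v z.1| ^ (p + 1))
          + Inu R.ℓ R.h (δ n) (fun z => (p + 1) * sp p (v z.1) * (U n z - v z.1)) := by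
      rw [Inu, Inu, Inu, ← integral_add (integrable_mul_cont hvi hden)
        (integrable_mul_cont hspd hden)]
      congr 1; funext z; ring
    have s3 : |Inu R.ℓ R.h (δ n) (fun z => (p + 1) * sp p (v z.1) * (U n z - v z.1))| ≤ g n := by
      have b1 : |Inu R.ℓ R.h (δ n) (fun z => (p + 1) * sp p (v z.1) * (U n z - v z.1))|
          ≤ ((p + 1) * Ks * (H * Real.exp (4 * Real.pi * H / R.ℓ * δ n)))
            * ∫ z, 1 * |U n z - v z.1| ∂muT R.ℓ := by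
        rw [Inu, ← integral_const_mul]
        refine abs_integral_le_integral_abs.trans ?_
        apply integral_mono_ae (integrable_mul_cont hspd hden).abs
          ((hdiff.abs.const_mul 1).const_mul _)
        filter_upwards [hKs, om_sub_one hℓ hH (hδ n).le, H7.ae_muT_mem R.ℓ] with z z1 z2 z3
        simp only [abs_mul, one_mul]
        have a1 := hH z.1 (Ioc_subset_Icc_self z3.1)
        have a2 : |om R.ℓ R.h (δ n) z| ≤ Real.exp (4 * Real.pi * H / R.ℓ * δ n) := by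
          rw [abs_of_pos (om_pos _ _)]
          have := (abs_le.1 z2).2
          linarith
        rw [abs_of_pos (by linarith : 0 < p + 1), abs_div, abs_mul,
          abs_of_pos (by norm_num : (0:ℝ) < 2)]
        have a3 : |R.h z.1| * |om R.ℓ R.h (δ n) z| / 2
            ≤ H * Real.exp (4 * Real.pi * H / R.ℓ * δ n) := by
          have : |R.h z.1| * |om R.ℓ R.h (δ n) z| ≤ H * Real.exp (4 * Real.pi * H / R.ℓ * δ n) :=
            mul_le_mul a1 a2 (abs_nonneg _) hH0.le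
          have h0 : 0 ≤ H * Real.exp (4 * Real.pi * H / R.ℓ * δ n) := by positivity
          linarith
        calc (p + 1) * |sp p (v z.1)| * |U n z - v z.1| * (|R.h z.1| * |om R.ℓ R.h (δ n) z| / 2)
            ≤ (p + 1) * Ks * |U n z - v z.1| * (H * Real.exp (4 * Real.pi * H / R.ℓ * δ n)) := by
              gcongr
          _ = _ := by ring
      refine b1.trans ?_
      rw [hg]
      have hk0 : 0 ≤ (p + 1) * Ks * (H * Real.exp (4 * Real.pi * H / R.ℓ * δ n)) := by positivity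
      refine mul_le_mul_of_nonneg_left ?_ hk0
      apply Real.le_sqrt_of_sq_le
      have hm : MemLp (fun z => |U n z - v z.1|) 2 (muT R.ℓ) := by
        have := ((hU n).sub (memLp_fst hv)).abs
        exact this
      have := abs_int_mul_le R (w := fun _ => 1) measurable_const (K := 1) (fun _ => by simp) hm
      simpa [sq_abs] using this
    rw [s2] at s1
    have := (abs_le.1 s3).1
    linarith
  have t3 := t1.sub t2
  rw [sub_zero] at t3
  exact le_of_tendsto' t3 key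

theorem b5 (hMax : MaxExists) (hEL : EulerLagrange) (hW : W12D) (hCo : Coer2D)
    (hLim : LimitStatement) (hSup : SupClose) : ExStatement := by
  intro p l0 l1 l3 R
  have hp0 := R.hp0
  have hp1 := R.hp1
  have hl0 := R.hl0
  have hl01 := R.hl01
  have hl13 := R.hl13
  obtain ⟨K, κ, hκ, e1⟩ := b5a hMax hEL hW hCo R
  by_contra hcon
  have e0 : ∀ᶠ δ in 𝓝[>] (0:ℝ), 0 < δ := self_mem_nhdsWithin
  have hfr := (not_eventually.1 hcon).and_eventually (e1.and e0)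
  obtain ⟨δ, hδt, hδ⟩ := exists_seq_forall_of_frequently hfr
  choose h1 h2 using hδ
  choose h3 hδ0 using h2
  choose U V W g1 g2 g3 g4 g5 g6 using h3
  have hδt0 : Tendsto δ atTop (𝓝 0) := hδt.mono_right nhdsWithin_le_nhds
  obtain ⟨ns, hns, v, F, hv, hlim⟩ := hLim p l0 l1 l3 R l0 ⟨hl0, by linarith⟩ δ hδ0 hδt0 U V W g1
    ⟨K, g2⟩
  have hvc := sol_cont hv
  obtain ⟨Kw, hKw⟩ := wa_abs R
  have hmem : ∀ k, MemLp (U (ns k)) 2 (muT R.ℓ) := fun k => (g1 (ns k)).h1.mU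
  have ta : Tendsto (fun k => R.a2 (U (ns k))) atTop (𝓝 (∫ s in (0:ℝ)..R.ℓ, R.wa s * v s)) :=
    tendsto_int_w R R.wam (fun s => (hKw s).1) hmem hvc hlim
  have tb : Tendsto (fun k => R.b2 (U (ns k))) atTop (𝓝 (∫ s in (0:ℝ)..R.ℓ, R.wb s * v s)) :=
    tendsto_int_w R R.wbm (fun s => (hKw s).2) hmem hvc hlim
  have la : κ ≤ ∫ s in (0:ℝ)..R.ℓ, R.wa s * v s := ge_of_tendsto' ta fun k => g3 (ns k)
  have lab : R.t1 * (∫ s in (0:ℝ)..R.ℓ, R.wa s * v s) ≤ ∫ s in (0:ℝ)..R.ℓ, R.wb s * v s :=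
    le_of_tendsto_of_tendsto' (ta.const_mul _) tb fun k => g4 (ns k)
  have lba : (∫ s in (0:ℝ)..R.ℓ, R.wb s * v s) ≤ R.t2 * (∫ s in (0:ℝ)..R.ℓ, R.wa s * v s) :=
    le_of_tendsto_of_tendsto' tb (ta.const_mul _) fun k => g5 (ns k)
  have hZ := zm_le R (fun k => hδ0 (ns k)) (hδt0.comp hns.tendsto_atTop) hmem hvc hlim
    (fun k => g6 (ns k))
  have hne : ∃ s, v s ≠ 0 := by
    by_contra h
    push Not at h
    have : ∫ s in (0:ℝ)..R.ℓ, R.wa s * v s = 0 := by simp [h]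
    linarith
  have hpos := R.P0 v F hv (by linarith) lab lba hne hZ
  -- minimum of v
  obtain ⟨s0, _, hs0⟩ := (isCompact_Icc (a := (0:ℝ)) (b := R.ℓ)).exists_isMinOn
    (nonempty_Icc.2 R.hℓ.le) hvc.continuousOn
  have hmin := hpos s0
  obtain ⟨κ2, hκ2, eS⟩ := hSup p ⟨hp0, hp1⟩ R.ℓ R.hℓ R.h R.smooth R.per R.pos l0 hl0 v F hv
    (v s0 / 2) (by linarith)
  have c1 : ∀ᶠ k in atTop, ∀ U' V' W', WSol p l0 R.ℓ R.h (δ (ns k)) U' V' W' →
      ∫ z, (U' z - v z.1) ^ 2 ∂muT R.ℓ ≤ κ2 → ∀ᵐ z ∂muT R.ℓ, |U' z - v z.1| ≤ v s0 / 2 :=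
    (hδt.comp hns.tendsto_atTop).eventually eS
  have c2 : ∀ᶠ k in atTop, ∫ z, (U (ns k) z - v z.1) ^ 2 ∂muT R.ℓ ≤ κ2 :=
    hlim.eventually_le_const hκ2
  obtain ⟨k, d1, d2⟩ := (c1.and c2).exists
  have d3 := d1 _ _ _ (g1 (ns k)) d2
  refine h1 (ns k) ⟨U (ns k), V (ns k), W (ns k), g1 (ns k), ⟨v s0 / 2, by linarith, ?_⟩, ?_⟩
  · filter_upwards [d3, H7.ae_muT_mem R.ℓ] with z hz hz2
    have a1 := (abs_le.1 hz).1
    have a2 : v s0 ≤ v z.1 := hs0 (Ioc_subset_Icc_self hz2.1)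
    linarith
  · rintro ⟨c, hc⟩
    have ea : R.a2 (U (ns k)) = c := by
      have : R.a2 (U (ns k)) = R.a2 (fun z => (fun _ : ℝ => c) z.1) := by
        rw [Ring1D.a2, Ring1D.a2]
        congr 1
        apply integral_congr_ae
        filter_upwards [hc] with z hz
        rw [hz]
      rw [this, a2_fst R (fun _ => c), intervalIntegral.integral_mul_const, R.wa1, one_mul]
    have eb : R.b2 (U (ns k)) = c := by
      have : R.b2 (U (ns k)) = R.b2 (fun z => (fun _ : ℝ => c) z.1) := by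
        rw [Ring1D.b2, Ring1D.b2]
        congr 1
        apply integral_congr_ae
        filter_upwards [hc] with z hz
        rw [hz]
      rw [this, b2_fst R (fun _ => c), intervalIntegral.integral_mul_const, R.wb1, one_mul]
    have a1 := g3 (ns k)
    have a2 := g4 (ns k)
    rw [ea] at a1 a2
    rw [eb] at a2
    nlinarith [R.ht1]

end H82
end Pool.Agent.Lib.MP_e46711_an
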