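import Pool.Agent.Lib.MP_e46711_an.H82.Basic

/-!
C9: assembly of part C.
-/

open Set Filter Topology MeasureTheory
open scoped ContDiff

namespace Pool.Agent.Lib.MP_e46711_an

namespace H82

/-- the averaging weight of a set -/
noncomputable def wgt (S : Set ℝ) (ε : ℝ) (s : ℝ) : ℝ := S.indicator (fun _ => 1 / ε) s

lemma lip_of_C1 {ℓ : ℝ} {u : ℝ → ℝ} (hu : ContDiff ℝ 1 u) : Lip u 0 ℓ := by
  have hc : Continuous (deriv u) := hu.continuous_deriv le_rfl
  obtain ⟨K, hK⟩ := (isCompact_Icc (a := (0:ℝ)) (b := ℓ)).exists_bound_of_continuousOn hc.continuousOn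
  refine ⟨Real.toNNReal K, ?_⟩
  refine (convex_Icc (0:ℝ) ℓ).lipschitzOnWith_of_nnnorm_deriv_le (fun x _ => ?_) (fun x hx => ?_)
  · exact (hu.differentiable one_ne_zero) x
  · rw [← NNReal.coe_le_coe, coe_nnnorm]
    exact (hK x hx).trans (Real.le_coe_toNNReal K)

variable {P : Par} {ε : ℝ}

lemma ell_eq : P.ell ε = P.s14 ε + ε / 2 := by simp only [Par.ell, Par.s14]; ring

lemma order (hε : 0 < ε) : 0 < P.s1 ε ∧ P.s1 ε < P.s4 ε ∧ P.s4 ε < P.s5 ε ∧ P.s5 ε < P.s6 ε ∧
    P.s6 ε < P.s8 ε ∧ P.s8 ε < P.s9 ε ∧ P.s9 ε < P.s14 ε ∧ P.s14 ε < P.ell ε := by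
  have h3 : 0 < ε ^ 3 := by positivity
  have := P.hτ
  simp only [Par.s1, Par.s4, Par.s5, Par.s6, Par.s8, Par.s9, Par.s14, Par.ell]
  refine ⟨?_, ?_, ?_, ?_, ?_, ?_, ?_, ?_⟩ <;> linarith

/-- integrals against `wgt` of an interval -/
lemma int_wgt_Icc {a b c d : ℝ} (hca : c ≤ a) (hab : a ≤ b) (hbd : b ≤ d)
    {u : ℝ → ℝ} :
    ∫ s in c..d, wgt (Icc a b) ε s * u s = (∫ s in a..b, u s) / ε := by
  have h1 : (fun s => wgt (Icc a b) ε s * u s) = (Icc a b).indicator (fun s => 1 / ε * u s) := by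
    funext s
    by_cases hs : s ∈ Icc a b <;> simp [wgt, hs]
  rw [h1, intervalIntegral.integral_of_le (hca.trans (hab.trans hbd)),
    setIntegral_indicator measurableSet_Icc, intervalIntegral.integral_of_le hab]
  have h2 : (∫ x in Ioc c d ∩ Icc a b, 1 / ε * u x) = ∫ x in Ioc a b, 1 / ε * u x := by
    apply setIntegral_congr_set
    have e1 : (Icc a b : Set ℝ) =ᵐ[volume] Ioc a b := Ioc_ae_eq_Icc.symm
    have e2 : (Ioc c d ∩ Icc a b : Set ℝ) =ᵐ[volume] (Ioc c d ∩ Ioc a b : Set ℝ) :=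
      (ae_eq_refl _).inter e1
    refine e2.trans ?_
    rw [inter_eq_right.2 (Ioc_subset_Ioc hca hbd)]
  rw [h2, integral_const_mul]
  ring

lemma int_wa (hε : 0 < ε) {u : ℝ → ℝ} (hu : Continuous u) :
    ∫ s in (0:ℝ)..(P.ell ε), (wgt (Icc 0 (P.s1 ε)) ε s + wgt (Icc (P.s14 ε) (P.ell ε)) ε s) * u s
      = P.av ε u := by
  obtain ⟨h1, h2, h3, h4, h5, h6, h7, h8⟩ := order (P := P) hε
  have hm : ∀ a b, IntervalIntegrable (fun s => wgt (Icc a b) ε s * u s) volume 0 (P.ell ε) := by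
    intro a b
    have h1 : (fun s => wgt (Icc a b) ε s * u s) = (Icc a b).indicator (fun s => 1 / ε * u s) := by
      funext s
      by_cases hs : s ∈ Icc a b <;> simp [wgt, hs]
    rw [h1, intervalIntegrable_iff_integrableOn_Ioc_of_le (by linarith)]
    exact ((continuous_const.mul hu).integrableOn_Icc.mono_set Ioc_subset_Icc_self).indicator
      measurableSet_Icc
  simp only [add_mul]
  rw [intervalIntegral.integral_add (hm _ _) (hm _ _),
    int_wgt_Icc le_rfl h1.le (by linarith), int_wgt_Icc (by linarith) h8.le le_rfl, Par.av]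
  ring

lemma int_wb (hε : 0 < ε) {u : ℝ → ℝ} :
    ∫ s in (0:ℝ)..(P.ell ε), wgt (Icc (P.s4 ε) (P.s5 ε)) ε s * u s = P.bv ε u := by
  obtain ⟨h1, h2, h3, h4, h5, h6, h7, h8⟩ := order (P := P) hε
  rw [int_wgt_Icc (by linarith) h3.le (by linarith), Par.bv]

lemma en_nonneg {h u : ℝ → ℝ} {s t : ℝ} (hst : s ≤ t) (hh : ∀ r, 0 < h r) : 0 ≤ En h u s t :=
  intervalIntegral.integral_nonneg hst (fun r _ => mul_nonneg (hh r).le (sq_nonneg _))

lemma sm_nonneg {h u : ℝ → ℝ} {s t : ℝ} (hst : s ≤ t) (hh : ∀ r, 0 < h r) : 0 ≤ Sm h u s t :=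
  intervalIntegral.integral_nonneg hst (fun r _ => mul_nonneg (hh r).le (sq_nonneg _))

/-- Jensen on an interval with constant weight -/
lemma jensen_piece {h u : ℝ → ℝ} {s t k q : ℝ} (hst : s < t) (hq : 1 < q) (hu : Continuous u)
    (hk : 0 ≤ k) (hh : ∀ r ∈ Icc s t, h r = k) (y : ℝ) :
    k * ((t - s) * |y| ^ q + q * sp (q - 1) y * ((∫ r in s..t, u r) - (t - s) * y))
      ≤ ∫ r in s..t, h r * |u r| ^ q := by
  have hc : Continuous fun r => |u r| ^ q :=
    (continuous_abs.comp hu).rpow_const (fun _ => Or.inr (by linarith))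
  have e1 : (∫ r in s..t, h r * |u r| ^ q) = ∫ r in s..t, k * |u r| ^ q := by
    apply intervalIntegral.integral_congr
    intro r hr
    rw [uIcc_of_le hst.le] at hr
    simp only [hh r hr]
  rw [e1, intervalIntegral.integral_const_mul]
  refine mul_le_mul_of_nonneg_left ?_ hk
  have e2 : (t - s) * |y| ^ q + q * sp (q - 1) y * ((∫ r in s..t, u r) - (t - s) * y)
      = ∫ r in s..t, (|y| ^ q + q * sp (q - 1) y * (u r - y)) := by
    rw [intervalIntegral.integral_add (by simp) (by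
      apply Continuous.intervalIntegrable; fun_prop)]
    rw [intervalIntegral.integral_const_mul, intervalIntegral.integral_sub
      (hu.intervalIntegrable _ _) (by simp)]
    simp
  rw [e2]
  apply intervalIntegral.integral_mono_on hst.le
  · apply Continuous.intervalIntegrable; fun_prop
  · exact hc.intervalIntegrable _ _
  · intro r _; exact tangent hq (u r) y

/-- splitting off pieces of a nonnegative integral -/
lemma split_nonneg {f : ℝ → ℝ} (hf : Continuous f) (h0 : ∀ r, 0 ≤ f r) {a b c d : ℝ}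
    (hca : c ≤ a) (hab : a ≤ b) (hbd : b ≤ d) : ∫ r in a..b, f r ≤ ∫ r in c..d, f r := by
  have i := fun x y => hf.intervalIntegrable (μ := volume) x y
  rw [← intervalIntegral.integral_add_adjacent_intervals (i c a) (i a d),
    ← intervalIntegral.integral_add_adjacent_intervals (i a b) (i b d)]
  have h1 := intervalIntegral.integral_nonneg (μ := volume) (f := f) hca (fun r _ => h0 r)
  have h2 := intervalIntegral.integral_nonneg (μ := volume) (f := f) hbd (fun r _ => h0 r)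
  linarith

lemma jensen (hε : 0 < ε) {h : ℝ → ℝ} (hr : P.IsRing ε h) {u : ℝ → ℝ} (hu : Continuous u) :
    P.M / ε * |P.av ε u| ^ (P.p + 1) + P.m / ε * |P.bv ε u| ^ (P.p + 1)
      ≤ Zm P.p h u 0 (P.ell ε) := by
  obtain ⟨h1, h2, h3, h4, h5, h6, h7, h8⟩ := order (P := P) hε
  have hp0 := P.hp0
  have hq : 1 < P.p + 1 := by linarith
  set q := P.p + 1 with hqd
  have hc : Continuous fun r => h r * |u r| ^ q :=
    hr.smooth.continuous.mul ((continuous_abs.comp hu).rpow_const (fun _ => Or.inr (by linarith)))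
  have h0 : ∀ r, 0 ≤ h r * |u r| ^ q := fun r =>
    mul_nonneg (hr.pos r).le (Real.rpow_nonneg (abs_nonneg _) _)
  have kM : 0 ≤ P.M / ε ^ 2 := (div_pos P.hM (by positivity)).le
  have km : 0 ≤ P.m / ε ^ 2 := (div_pos P.hm (by positivity)).le
  have j1 := jensen_piece h1 hq hu kM hr.hH (P.av ε u)
  have j2 := jensen_piece h8 hq hu kM hr.hH' (P.av ε u)
  have j3 := jensen_piece h3 hq hu km hr.hL (P.bv ε u)
  have i := fun x y => hc.intervalIntegrable (μ := volume) x y
  have e1 : Zm P.p h u 0 (P.ell ε) = (∫ r in (0:ℝ)..(P.s1 ε), h r * |u r| ^ q)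
      + (∫ r in (P.s1 ε)..(P.s14 ε), h r * |u r| ^ q)
      + ∫ r in (P.s14 ε)..(P.ell ε), h r * |u r| ^ q := by
    rw [intervalIntegral.integral_add_adjacent_intervals (i _ _) (i _ _),
      intervalIntegral.integral_add_adjacent_intervals (i _ _) (i _ _)]
    rfl
  have e2 := split_nonneg hc h0 h2.le h3.le (show P.s5 ε ≤ P.s14 ε by linarith)
  have a1 : (∫ r in (0:ℝ)..(P.s1 ε), u r) + (∫ r in (P.s14 ε)..(P.ell ε), u r) = ε * P.av ε u := by
    rw [Par.av]; field_simp
  have b1 : (∫ r in (P.s4 ε)..(P.s5 ε), u r) = ε * P.bv ε u := by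
    rw [Par.bv]; field_simp
  have l1 : P.s1 ε - 0 = ε / 2 := by simp [Par.s1]
  have l2 : P.ell ε - P.s14 ε = ε / 2 := by rw [ell_eq]; ring
  have l3 : P.s5 ε - P.s4 ε = ε := by simp only [Par.s5, Par.s4]; ring
  rw [l1] at j1
  rw [l2] at j2
  rw [l3, b1] at j3
  have t1 : P.M / ε ^ 2 * (ε / 2 * |P.av ε u| ^ q + q * sp (q - 1) (P.av ε u)
        * ((∫ r in (0:ℝ)..(P.s1 ε), u r) - ε / 2 * P.av ε u))
      + P.M / ε ^ 2 * (ε / 2 * |P.av ε u| ^ q + q * sp (q - 1) (P.av ε u)
        * ((∫ r in (P.s14 ε)..(P.ell ε), u r) - ε / 2 * P.av ε u))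
      = P.M / ε * |P.av ε u| ^ q := by
    have : (∫ r in (0:ℝ)..(P.s1 ε), u r) = ε * P.av ε u - ∫ r in (P.s14 ε)..(P.ell ε), u r := by
      linarith
    rw [this]; field_simp; ring
  have t2 : P.m / ε ^ 2 * (ε * |P.bv ε u| ^ q + q * sp (q - 1) (P.bv ε u)
        * (ε * P.bv ε u - ε * P.bv ε u)) = P.m / ε * |P.bv ε u| ^ q := by
    field_simp; ring
  rw [e1]
  linarith [e2, j1, j2, j3, t1, t2]

/-- distance to the averages -/
lemma abs_sub_av_le (hε : 0 < ε) {u : ℝ → ℝ} (hu : Continuous u) {D : ℝ} {s : ℝ}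
    (hD : ∀ t ∈ Icc 0 (P.ell ε), |u s - u t| ≤ D) : |u s - P.av ε u| ≤ D := by
  obtain ⟨h1, h2, h3, h4, h5, h6, h7, h8⟩ := order (P := P) hε
  have e : u s - P.av ε u = ((∫ t in (0:ℝ)..(P.s1 ε), (u s - u t))
      + ∫ t in (P.s14 ε)..(P.ell ε), (u s - u t)) / ε := by
    rw [intervalIntegral.integral_sub (by simp) (hu.intervalIntegrable _ _),
      intervalIntegral.integral_sub (by simp) (hu.intervalIntegrable _ _), Par.av]
    simp only [intervalIntegral.integral_const, smul_eq_mul]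
    rw [ell_eq, show P.s1 ε - 0 = ε / 2 by simp [Par.s1]]
    field_simp
    ring
  rw [e, abs_div, abs_of_pos hε, div_le_iff₀ hε]
  have b1 := intervalIntegral.norm_integral_le_of_norm_le_const (a := (0:ℝ)) (b := P.s1 ε)
    (f := fun t => u s - u t) (C := D) (fun t ht => by
      rw [uIoc_of_le h1.le] at ht
      exact hD t ⟨ht.1.le, by linarith [ht.2]⟩)
  have b2 := intervalIntegral.norm_integral_le_of_norm_le_const (a := P.s14 ε) (b := P.ell ε)
    (f := fun t => u s - u t) (C := D) (fun t ht => by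
      rw [uIoc_of_le h8.le] at ht
      exact hD t ⟨by linarith [ht.1], ht.2⟩)
  have l1 : |P.s1 ε - 0| = ε / 2 := by
    rw [Par.s1, sub_zero, abs_of_pos (by positivity)]
  have l2 : |P.ell ε - P.s14 ε| = ε / 2 := by
    rw [ell_eq, add_sub_cancel_left, abs_of_pos (by positivity)]
  rw [l1] at b1
  rw [l2] at b2
  rw [Real.norm_eq_abs] at b1 b2
  calc _ ≤ |∫ t in (0:ℝ)..(P.s1 ε), (u s - u t)| + |∫ t in (P.s14 ε)..(P.ell ε), (u s - u t)| :=
        abs_add_le _ _
    _ ≤ D * ε := by nlinarith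

/-- Cauchy-Schwarz for `C^1` functions -/
lemma abs_sub_sq_le {u : ℝ → ℝ} (hu : ContDiff ℝ 1 u) {ℓ s t : ℝ} (hs : s ∈ Icc 0 ℓ)
    (ht : t ∈ Icc 0 ℓ) : (u s - u t) ^ 2 ≤ ℓ * ∫ r in (0:ℝ)..ℓ, (deriv u r) ^ 2 := by
  have hc : Continuous (deriv u) := hu.continuous_deriv le_rfl
  wlog hst : t ≤ s generalizing s t with H
  · have := H ht hs (le_of_not_ge hst)
    rwa [← neg_sub, neg_sq] at this
  have e : u s - u t = ∫ r in t..s, deriv u r :=
    (intervalIntegral.integral_deriv_eq_sub (fun x _ => (hu.differentiable one_ne_zero) x)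
      (hc.intervalIntegrable _ _)).symm
  have h2 : Continuous fun r => (deriv u r) ^ 2 := hc.pow 2
  -- (∫ f)^2 ≤ (s-t) ∫ f^2
  have cs : (∫ r in t..s, deriv u r) ^ 2 ≤ (s - t) * ∫ r in t..s, (deriv u r) ^ 2 := by
    rcases hst.eq_or_lt with h | h
    · subst h; simp
    have hpos : 0 < s - t := by linarith
    set I := ∫ r in t..s, deriv u r with hI
    have : 0 ≤ ∫ r in t..s, (deriv u r - I / (s - t)) ^ 2 :=
      intervalIntegral.integral_nonneg hst (fun _ _ => sq_nonneg _)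
    have e2 : (∫ r in t..s, (deriv u r - I / (s - t)) ^ 2)
        = (∫ r in t..s, (deriv u r) ^ 2) - I ^ 2 / (s - t) := by
      have : (fun r => (deriv u r - I / (s - t)) ^ 2)
          = fun r => (deriv u r) ^ 2 - (2 * (I / (s - t))) * deriv u r + (I / (s - t)) ^ 2 := by
        funext r; ring
      rw [this, intervalIntegral.integral_add, intervalIntegral.integral_sub,
        intervalIntegral.integral_const_mul, ← hI]
      · simp only [intervalIntegral.integral_const, smul_eq_mul]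
        field_simp
        ring
      · exact h2.intervalIntegrable _ _
      · exact (continuous_const.mul hc).intervalIntegrable _ _
      · exact (h2.sub (continuous_const.mul hc)).intervalIntegrable _ _
      · simp
    rw [e2] at this
    have h3 : I ^ 2 / (s - t) ≤ ∫ r in t..s, (deriv u r) ^ 2 := by linarith
    rwa [div_le_iff₀ hpos, mul_comm] at h3
  rw [e]
  refine cs.trans ?_
  have m1 := split_nonneg h2 (fun r => sq_nonneg _) ht.1 hst hs.2
  have m2 : 0 ≤ ∫ r in (0:ℝ)..ℓ, (deriv u r) ^ 2 :=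
    intervalIntegral.integral_nonneg (ht.1.trans (hst.trans hs.2)) (fun _ _ => sq_nonneg _)
  have m3 : 0 ≤ ∫ r in t..s, (deriv u r) ^ 2 :=
    intervalIntegral.integral_nonneg hst (fun _ _ => sq_nonneg _)
  have : s - t ≤ ℓ := by linarith [hs.2, ht.1]
  nlinarith [this, m1, m2, m3, ht.1, hs.2]

/-- (coer) -/
lemma coer_of (hε : 0 < ε) {h : ℝ → ℝ} (hr : P.IsRing ε h) {δ : ℝ} (hδ : 0 < δ) (C0 : ℝ)
    (hQ : ∀ u, C1p (P.ell ε) u → δ * En h u 0 (P.ell ε)
      - C0 * ((P.av ε u) ^ 2 + (P.bv ε u) ^ 2)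
        ≤ En h u 0 (P.ell ε) - P.L2 * Sm h u 0 (P.ell ε)) :
    ∃ c > 0, ∃ C, ∀ u, C1p (P.ell ε) u →
      c * ((∫ s in (0:ℝ)..(P.ell ε), (deriv u s) ^ 2) + ∫ s in (0:ℝ)..(P.ell ε), (u s) ^ 2)
        ≤ En h u 0 (P.ell ε) - P.L2 * Sm h u 0 (P.ell ε)
          + C * ((P.av ε u) ^ 2 + (P.bv ε u) ^ 2) := by
  obtain ⟨h1, h2, h3, h4, h5, h6, h7, h8⟩ := order (P := P) hε
  set ℓ := P.ell ε with hℓ
  have hℓ0 : 0 < ℓ := by linarith
  -- lower bound of h
  obtain ⟨s0, _, hs0⟩ := (isCompact_Icc (a := (0:ℝ)) (b := ℓ)).exists_isMinOn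
    (nonempty_Icc.2 hℓ0.le) hr.smooth.continuous.continuousOn
  have hk := hr.pos s0
  set k := h s0 with hkd
  have key : ∀ u, C1p ℓ u → (∫ s in (0:ℝ)..ℓ, (deriv u s) ^ 2) ≤ En h u 0 ℓ / k := by
    intro u hu
    have hc : Continuous (deriv u) := hu.1.continuous_deriv le_rfl
    rw [le_div_iff₀ hk, mul_comm, ← intervalIntegral.integral_const_mul]
    apply intervalIntegral.integral_mono_on hℓ0.le
    · exact (continuous_const.mul (hc.pow 2)).intervalIntegrable _ _
    · exact (hr.smooth.continuous.mul (hc.pow 2)).intervalIntegrable _ _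
    · intro r hr'
      exact mul_le_mul_of_nonneg_right (hs0 hr') (sq_nonneg _)
  have key2 : ∀ u, C1p ℓ u → (∫ s in (0:ℝ)..ℓ, (u s) ^ 2)
      ≤ 2 * ℓ * (P.av ε u) ^ 2 + 2 * ℓ ^ 2 * ∫ s in (0:ℝ)..ℓ, (deriv u s) ^ 2 := by
    intro u hu
    have hcu : Continuous u := hu.1.continuous
    set D := ∫ s in (0:ℝ)..ℓ, (deriv u s) ^ 2 with hD
    have hD0 : 0 ≤ D := intervalIntegral.integral_nonneg hℓ0.le (fun _ _ => sq_nonneg _)
    have hb : ∀ s ∈ Icc 0 ℓ, (u s) ^ 2 ≤ 2 * (P.av ε u) ^ 2 + 2 * (ℓ * D) := by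
      intro s hs
      have : |u s - P.av ε u| ≤ Real.sqrt (ℓ * D) := by
        apply abs_sub_av_le hε hcu
        intro t ht
        rw [← Real.sqrt_sq_eq_abs]
        exact Real.sqrt_le_sqrt (abs_sub_sq_le hu.1 hs ht)
      have h2 : (u s - P.av ε u) ^ 2 ≤ ℓ * D := by
        rw [← sq_abs]
        calc _ ≤ (Real.sqrt (ℓ * D)) ^ 2 := by gcongr
          _ = ℓ * D := Real.sq_sqrt (by positivity)
      nlinarith [sq_nonneg (u s - 2 * P.av ε u), sq_nonneg (u s - P.av ε u - P.av ε u)]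
    calc (∫ s in (0:ℝ)..ℓ, (u s) ^ 2) ≤ ∫ s in (0:ℝ)..ℓ, (2 * (P.av ε u) ^ 2 + 2 * (ℓ * D)) := by
          apply intervalIntegral.integral_mono_on hℓ0.le
          · exact (hcu.pow 2).intervalIntegrable _ _
          · simp
          · exact hb
      _ = _ := by
          simp only [intervalIntegral.integral_const, smul_eq_mul]; ring
  refine ⟨δ / ((1 + 2 * ℓ ^ 2) / k) , by positivity, C0 + δ / ((1 + 2 * ℓ ^ 2) / k) * (2 * ℓ), ?_⟩
  intro u hu
  have a1 := hQ u hu
  have a2 := key u hu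
  have a3 := key2 u hu
  set D := ∫ s in (0:ℝ)..ℓ, (deriv u s) ^ 2 with hD
  set c := δ / ((1 + 2 * ℓ ^ 2) / k) with hc
  have hc0 : 0 < c := by positivity
  have e1 : c * ((1 + 2 * ℓ ^ 2) / k) = δ := by rw [hc]; field_simp
  have s1 : c * (D + ∫ s in (0:ℝ)..ℓ, (u s) ^ 2)
      ≤ c * ((1 + 2 * ℓ ^ 2) * D + 2 * ℓ * (P.av ε u) ^ 2) := by
    apply mul_le_mul_of_nonneg_left _ hc0.le
    nlinarith
  have s2 : c * ((1 + 2 * ℓ ^ 2) * D) ≤ δ * En h u 0 ℓ := by
    rw [← e1]
    have : (1 + 2 * ℓ ^ 2) * D ≤ (1 + 2 * ℓ ^ 2) / k * En h u 0 ℓ := by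
      calc (1 + 2 * ℓ ^ 2) * D ≤ (1 + 2 * ℓ ^ 2) * (En h u 0 ℓ / k) := by gcongr
        _ = _ := by ring
    calc c * ((1 + 2 * ℓ ^ 2) * D) ≤ c * ((1 + 2 * ℓ ^ 2) / k * En h u 0 ℓ) := by gcongr
      _ = _ := by ring
  have s3 : 0 ≤ c * (2 * ℓ) * (P.bv ε u) ^ 2 := by positivity
  nlinarith [s1, s2, s3, a1]

end H82

open H82 in
/-- C9: assembly of part C -/
theorem c9 (hR : RingExists) (hQ : QFavStatement) (hD : DirStatement) (hT3 : T3Statement)
    (hT2 : T2Statement) (hT1a : T1aStatement) (hT1b : T1bStatement) (hN : NetExists) :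
    CStatement := by
  obtain ⟨P, hp, net⟩ := hN
  obtain ⟨ν, hν, K, hK, e1⟩ := hT1a P net
  obtain ⟨δ1, hδ1, e2⟩ := hQ P ν hν
  obtain ⟨δ2, hδ2, e3⟩ := hQ P (1 / 2) ⟨by norm_num, by norm_num⟩
  obtain ⟨νD, hνD, e4⟩ := hD P
  have e5 := hT3 P net
  have e6 := hT2 P net
  have e7 := hT1b P net K hK
  have e8 := hR P
  have e9 : ∀ᶠ ε in 𝓝[>] (0:ℝ), 0 < ε := self_mem_nhdsWithin
  obtain ⟨ε, f1, f2, f3, f4, f5, f6, f7, ⟨h, hr⟩, hε⟩ :=
    (e1.and (e2.and (e3.and (e4.and (e5.and (e6.and (e7.and (e8.and e9)))))))).exists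
  obtain ⟨σ, hσ, θ, hθ, g1, g2, g3⟩ := f1 h hr
  obtain ⟨h1, h2, h3, h4, h5, h6, h7, h8⟩ := order (P := P) hε
  have hp0 := P.hp0
  have hp1 := P.hp1
  have hL0 := P.hL0
  have hL01 := P.hL01
  have hL12 := P.hL12
  have hℓ : 0 < P.ell ε := by linarith
  have hu0 : ∀ u, C1p (P.ell ε) u → u 0 = u (P.ell ε) := by
    intro u hu
    have := hu.2 0
    rw [zero_add] at this; exact this.symm
  refine ⟨P.L0, P.L1, P.L2, ⟨?_⟩⟩
  rw [← hp]
  have iwa : ∀ u : ℝ → ℝ, Continuous u → ∫ s in (0:ℝ)..(P.ell ε),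
      (wgt (Icc 0 (P.s1 ε)) ε s + wgt (Icc (P.s14 ε) (P.ell ε)) ε s) * u s = P.av ε u :=
    fun u hu => int_wa hε hu
  have iwb : ∀ u : ℝ → ℝ, ∫ s in (0:ℝ)..(P.ell ε), wgt (Icc (P.s4 ε) (P.s5 ε)) ε s * u s
      = P.bv ε u := fun u => int_wb hε
  have wm : ∀ a b : ℝ, Measurable (wgt (Icc a b) ε) := fun a b =>
    measurable_const.indicator measurableSet_Icc
  have w0 : ∀ a b s : ℝ, 0 ≤ wgt (Icc a b) ε s := fun a b s =>
    indicator_nonneg (fun _ _ => by positivity) _
  have w1 : ∀ a b s : ℝ, wgt (Icc a b) ε s ≤ 1 / ε := fun a b s =>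
    indicator_le_self' (fun _ _ => by positivity) _
  exact
    { ℓ := P.ell ε
      h := h
      wa := fun s => wgt (Icc 0 (P.s1 ε)) ε s + wgt (Icc (P.s14 ε) (P.ell ε)) ε s
      wb := wgt (Icc (P.s4 ε) (P.s5 ε)) ε
      Q := P.Qf ν ε
      t1 := P.t1
      t2 := P.t2
      NH := P.M / ε
      NL := P.m / ε
      σ := σ
      θ := θ
      Z1 := K / ε
      l4 := (1 - P.p) * P.L2 / (1 - νD)
      hp0 := hp0
      hp1 := hp1
      hl0 := hL0
      hl01 := hL01
      hl13 := hL12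
      hℓ := hℓ
      smooth := hr.smooth
      per := hr.per
      pos := hr.pos
      wam := (wm _ _).add (wm _ _)
      wbm := wm _ _
      wa0 := fun s => add_nonneg (w0 _ _ s) (w0 _ _ s)
      wb0 := fun s => w0 _ _ s
      wab := ⟨1 / ε + 1 / ε, fun s => ⟨add_le_add (w1 _ _ s) (w1 _ _ s), by
        have := w1 (P.s4 ε) (P.s5 ε) s
        have : 0 < 1 / ε := by positivity
        linarith⟩⟩
      wa1 := by
        have := iwa (fun _ => 1) continuous_const
        simp only [mul_one] at this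
        rw [this, Par.av]
        simp only [intervalIntegral.integral_const, smul_eq_mul, mul_one]
        rw [ell_eq, Par.s1]
        field_simp
        ring
      wb1 := by
        have := iwb (fun _ => 1)
        simp only [mul_one] at this
        rw [this, Par.bv]
        simp only [intervalIntegral.integral_const, smul_eq_mul, mul_one]
        simp only [Par.s5, Par.s4]
        field_simp
        ring
      hNH := div_pos P.hM hε
      hNL := div_pos P.hm hε
      J := by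
        intro u hu
        rw [iwa u hu.1.continuous, iwb u]
        exact jensen hε hr hu.1.continuous
      coer := by
        have := coer_of hε hr hδ2 (((P.L2 + 1 / 2) * (P.M + P.m)) / ε) (by
          intro u hu
          have q := f3 h hr u (lip_of_C1 hu.1) (hu0 u hu) P.L2 ⟨by linarith, le_rfl⟩
          have hM := P.hM
          have hm := P.hm
          have : ((P.L2 + 1 / 2) * (P.M * P.av ε u ^ 2 + P.m * P.bv ε u ^ 2)) / ε
              ≤ ((P.L2 + 1 / 2) * (P.M + P.m)) / ε * ((P.av ε u) ^ 2 + (P.bv ε u) ^ 2) := by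
            rw [div_mul_eq_mul_div]
            apply div_le_div_of_nonneg_right _ hε.le
            have : P.M * P.av ε u ^ 2 + P.m * P.bv ε u ^ 2
                ≤ (P.M + P.m) * ((P.av ε u) ^ 2 + (P.bv ε u) ^ 2) := by
              nlinarith [mul_nonneg hM.le (sq_nonneg (P.bv ε u)),
                mul_nonneg hm.le (sq_nonneg (P.av ε u))]
            nlinarith
          have q2 : 0 ≤ (1 - 1 / 2) * (P.av ε u - P.bv ε u) ^ 2 / ε := by positivity
          have q3 : ((1 - 1 / 2) * (P.av ε u - P.bv ε u) ^ 2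
              - (P.L2 + 1 / 2) * (P.M * P.av ε u ^ 2 + P.m * P.bv ε u ^ 2)) / ε
              = (1 - 1 / 2) * (P.av ε u - P.bv ε u) ^ 2 / ε
                - ((P.L2 + 1 / 2) * (P.M * P.av ε u ^ 2 + P.m * P.bv ε u ^ 2)) / ε := sub_div _ _ _
          rw [q3] at q
          linarith)
        obtain ⟨c, hc, C, hC⟩ := this
        refine ⟨c, hc, C, fun u hu => ?_⟩
        rw [iwa u hu.1.continuous, iwb u]
        exact hC u hu
      T3 := by
        refine ⟨ε ^ 2, by positivity, fun k hk hk2 u hu => ?_⟩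
        exact f5 h hr k hk hk2 u (lip_of_C1 hu.1) (hu0 u hu)
      hl4 := by
        have : 0 < 1 - νD := by linarith [hνD.2]
        rw [lt_div_iff₀ this]
        have h1p : 0 < 1 - P.p := by linarith
        have : (1 - P.p) * P.L1 * (1 - νD) < (1 - P.p) * P.L1 * 1 := by
          apply mul_lt_mul_of_pos_left (by linarith [hνD.1])
          exact mul_pos h1p (by linarith)
        have : (1 - P.p) * P.L1 < (1 - P.p) * P.L2 := mul_lt_mul_of_pos_left hL12 h1p
        linarith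
      T4 := by
        intro u hu
        have hw : C1p (P.ell ε) (fun s => u s - u 0) :=
          ⟨hu.1.sub contDiff_const, fun s => by simp only [hu.2 s]⟩
        have q := f4 h hr (fun s => u s - u 0) (lip_of_C1 hw.1) (by simp) (by
          simp [hu0 u hu])
        have hd : deriv (fun s => u s - u 0) = deriv u := by
          funext s; exact deriv_sub_const _
        have hE : En h (fun s => u s - u 0) 0 (P.ell ε) = En h u 0 (P.ell ε) := by
          simp only [En, hd]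
        rw [hE] at q
        have hcw : Continuous fun s => h s * (u s - u 0) ^ 2 :=
          hr.smooth.continuous.mul ((hu.1.continuous.sub continuous_const).pow 2)
        have i := fun x y => hcw.intervalIntegrable (μ := volume) x y
        have hsum : Sm h (fun s => u s - u 0) 0 (P.ell ε)
            = (Sm h (fun s => u s - u 0) 0 (P.s6 ε)
              + Sm h (fun s => u s - u 0) (P.s14 ε) (P.ell ε))
              + Sm h (fun s => u s - u 0) (P.s6 ε) (P.s14 ε) := by
          simp only [Sm]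
          rw [← intervalIntegral.integral_add_adjacent_intervals (i 0 (P.s6 ε)) (i _ (P.ell ε)),
            ← intervalIntegral.integral_add_adjacent_intervals (i (P.s6 ε) (P.s14 ε))
              (i _ (P.ell ε))]
          ring
        have h1p : 0 < 1 - P.p := by linarith
        have hν1 : 0 < 1 - νD := by linarith [hνD.2]
        have s2 : 0 ≤ Sm h (fun s => u s - u 0) (P.s6 ε) (P.s14 ε) :=
          sm_nonneg (by linarith) hr.pos
        rw [div_mul_eq_mul_div, div_le_iff₀ hν1, hsum]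
        have hL2 : 0 < P.L2 := by linarith
        nlinarith [mul_nonneg (mul_nonneg hp0.le hL2.le) s2]
      ht1 := P.ht1
      ht2 := P.ht10.trans P.ht02
      hσ := hσ
      hθ := hθ
      Qc := by
        unfold Par.Qf
        fun_prop
      W1 := by
        intro u hu
        rw [iwa u hu.1.continuous, iwb u]
        have q := f2 h hr u (lip_of_C1 hu.1) (hu0 u hu) P.L0 ⟨hL0.le, by linarith⟩
        have hE : 0 ≤ En h u 0 (P.ell ε) := en_nonneg hℓ.le hr.pos
        have : P.Qf ν ε (P.av ε u) (P.bv ε u) = - (((1 - ν) * (P.av ε u - P.bv ε u) ^ 2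
            - (P.L0 + ν) * (P.M * P.av ε u ^ 2 + P.m * P.bv ε u ^ 2)) / ε) := by
          rw [Par.Qf]; ring
        rw [this]
        nlinarith [mul_nonneg hδ1.le hE]
      W2 := by
        obtain ⟨u, hu1, hu2, hu3, hu4, hu5, hu6, hu7⟩ := g2
        refine ⟨u, ⟨hu1, hu2⟩, hu3, ?_⟩
        rw [iwa u hu1.continuous, iwb u]
        exact ⟨hu4, hu5, hu6, hu7⟩
      W3 := g3
      hZ1 := g1
      P0 := by
        intro u F hs
        have hc : Continuous u := continuous_iff_continuousAt.2 fun s => (hs.du s).continuousAt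
        rw [iwa u hc, iwb u]
        intro a1 a2 a3 a4 a5
        exact f7 h hr u F hs a1 a2 a3 a4 a5
      T2 := by
        intro u F hs h0
        rcases f6 h hr u F hs h0 with hh | hh | ⟨α, β, b1, b2, b3, b4⟩
        · exact Or.inl hh
        · exact Or.inr (Or.inl hh)
        · refine Or.inr (Or.inr ⟨α, β, by linarith, b2, by linarith, b4, ?_⟩)
          intro s hs'
          rw [hr.hQ s ⟨by linarith [hs'.1], by linarith [hs'.2]⟩,
            hr.hQ α ⟨by linarith, by linarith⟩] }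

end Pool.Agent.Lib.MP_e46711_an
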