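import Pool.Agent.Lib.MP_e46711_an.DefsA

open Set Filter Topology MeasureTheory
open scoped ContDiff

namespace Pool.Agent.Lib.MP_e46711_an

/-- B8: assembly of part B -/
theorem b_of (h1 : ExStatement) (h2 : UniqStatement) (h3 : T32D) : BStatement := by
  intro p l0 l1 l3 R l2 h12 h23
  filter_upwards [h1 p l0 l1 l3 R, h2 p l0 l1 l3 R,
    h3 p l0 l1 l3 R l2 (by linarith [R.hl0, R.hl01]) h23] with δ e1 e2 e3
  exact ⟨e1, e2, e3⟩

theorem fin_of (hC : CStatement) (hB : BStatement) (hA : AStatement) : MainStatement (1 / 8) := by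
  obtain ⟨l0, l1, l3, ⟨R⟩⟩ := hC
  have h13 := R.hl13
  have e1 := hB _ l0 l1 l3 R ((l1 + l3) / 2) (by linarith) (by linarith)
  have e2 : ∀ᶠ δ in 𝓝[>] (0:ℝ), 0 < δ := self_mem_nhdsWithin
  obtain ⟨δ, f1, hδ⟩ := (e1.and e2).exists
  exact hA (1 / 8) ⟨by norm_num, by norm_num⟩ R.ℓ R.hℓ R.h R.smooth R.per R.pos δ hδ l0 l1
    ((l1 + l3) / 2) R.hl0 R.hl01 (by linarith) f1

end Pool.Agent.Lib.MP_e46711_an
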