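import Pool.Agent.Lib.MP_e46711_an.DefsA2
import Pool.Agent.Lib.MP_e46711_an.H82.Fin
import Pool.Agent.Lib.MP_e46711_an.H82.B5
import Pool.Agent.Lib.MP_e46711_an.H82.C9
import Pool.Agent.Lib.MP_e46711_an.H1.B0c
import Pool.Agent.Lib.MP_e46711_an.H1.B1b
import Pool.Agent.Lib.MP_e46711_an.H2.C7
import Pool.Agent.Lib.MP_e46711_an.H7.Basic
import Pool.Agent.Lib.MP_e46711_an.H7.Trunc
import Pool.Agent.Lib.MP_e46711_an.H11.C1
import Pool.Agent.Lib.MP_e46711_an.H11.C2c
import Pool.Agent.Lib.MP_e46711_an.H16.SupClose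
import Pool.Agent.Lib.MP_e46711_an.H19.Form
import Pool.Agent.Lib.MP_e46711_an.H19.Ring
import Pool.Agent.Lib.MP_e46711_an.H21.LocalDead
import Pool.Agent.Lib.MP_e46711_an.H21.T32D
import Pool.Agent.Lib.MP_e46711_an.H24.A4
import Pool.Agent.Lib.MP_e46711_an.H29.EulerLagrange
import Pool.Agent.Lib.MP_e46711_an.H34.A3
import Pool.Agent.Lib.MP_e46711_an.H35.NetD
import Pool.Agent.Lib.MP_e46711_an.H36.Compare
import Pool.Agent.Lib.MP_e46711_an.H46.Uniq
import Pool.Agent.Lib.MP_e46711_an.H55.Approx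
import Pool.Agent.Lib.MP_e46711_an.H55.Window
import Pool.Agent.Lib.MP_e46711_an.H69.MaxEx
import Pool.Agent.Lib.MP_e46711_an.H70.A1
import Pool.Agent.Lib.MP_e46711_an.H74.Alive
import Pool.Agent.Lib.MP_e46711_an.H74.Dead
import Pool.Agent.Lib.MP_e46711_an.H76.Far
import Pool.Agent.Lib.MP_e46711_an.H97.T2
import Pool.Agent.Lib.MP_e46711_an.H99.B4

/-!
# MP_e46711_an: assembly of all modules
-/

open Set Filter Topology MeasureTheory
open scoped ContDiff

namespace Pool.Agent.Lib.MP_e46711_an.H82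

theorem supClose : SupClose :=
  H16.supClose H7.h1t_basic H7.h1t_trunc H1.gn H19.weakExtend H19.formCompare

theorem eulerLagrange : EulerLagrange := H29.b3b H7.h1t_basic

theorem localDead : LocalDead := H21.localDead H7.h1t_basic H7.h1t_trunc H19.weakExtend

theorem compare : CompareStatement := H36.c5a H11.c1

theorem approx : ApproxStatement := H55.approx_holds H11.qfav

/-- part C -/
theorem cStatement : CStatement :=
  c9 H19.ringExists H11.qfav H11.dir (H76.t3 H11.qf H11.dir)
    (H97.t2_holds H11.c1 H11.dir approx compare H74.deadBarrier) H2.t1a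
    (H55.window_holds H11.qfav approx compare H74.aliveBarrier) H35.netExists

theorem limit : LimitStatement :=
  H99.limitStatement H7.h1t_basic H1.h1t_average H19.weakExtend H19.formCompare

/-- part B -/
theorem bStatement : BStatement :=
  b_of (H82.b5 (H69.maxExists H7.h1t_basic H1.coer2D H19.formCompare) eulerLagrange H1.w12D
      H1.coer2D limit supClose)
    (H46.uniq H1.coer2D H1.t42D limit supClose localDead H19.weakExtend) H21.t32D

theorem fin_strong (hC : CStatement) (hB : BStatement) (hA : AStrong) : MainStrong (1 / 8) := by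
  obtain ⟨l0, l1, l3, ⟨R⟩⟩ := hC
  have h13 := R.hl13
  have e1 := hB _ l0 l1 l3 R ((l1 + l3) / 2) (by linarith) (by linarith)
  have e2 : ∀ᶠ δ in 𝓝[>] (0:ℝ), 0 < δ := self_mem_nhdsWithin
  obtain ⟨δ, f1, hδ⟩ := (e1.and e2).exists
  exact hA (1 / 8) ⟨by norm_num, by norm_num⟩ R.ℓ R.hℓ R.h R.smooth R.per R.pos δ hδ l0 l1
    ((l1 + l3) / 2) R.hl0 R.hl01 (by linarith) f1

/-- the negative answer of Q1 for `p = 1 / 8` -/
theorem mainStrong : MainStrong (1 / 8) := fin_strong cStatement bStatement H24.a4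

end Pool.Agent.Lib.MP_e46711_an.H82
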